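import Pool.Agent.helper34.FJ3.DefsB

set_option autoImplicit false

/-!
# FJ3, module B12: the truncated metric of a metric graph of girth at least `2π`
-/

namespace Pool.Agent.helper26.FJ3

open Pool.Agent.helper34.FJ3
open scoped BigOperators

variable {V : Type} {Γ : MGraph V}

/-! ### Closed walks -/

theorem girth_seq (v : ℕ → V) (n : ℕ) (hadj : ∀ i, i < n → Γ.adj (v i) (v (i + 1)))
    (hnb : ∀ i, i + 2 ≤ n → v i ≠ v (i + 2)) : ∀ k i, 0 < k → i + k ≤ n → v i = v (i + k) →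
    2 * Real.pi ≤ ∑ j ∈ Finset.Ico i (i + k), Γ.w (v j) (v (j + 1)) := by
  intro k
  induction k using Nat.strong_induction_on with
  | _ k ih =>
    intro i hk hin hv
    by_cases hinj : ∀ p q, p < k → q < k → v (i + p) = v (i + q) → p = q
    · have h3 : 3 ≤ k := by
        by_contra hlt
        have h12 : k = 1 ∨ k = 2 := by omega
        rcases h12 with rfl | rfl
        · have := hadj i (by omega)
          rw [← hv] at this
          exact Γ.adj_irrefl _ this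
        · exact hnb i hin hv
      have := Γ.girth k (fun p => v (i + p)) h3 (by simpa using hv.symm) hinj
        (fun p hp => hadj (i + p) (by omega))
      refine this.trans (le_of_eq ?_)
      rw [Finset.sum_Ico_eq_sum_range, Nat.add_sub_cancel_left]
      rfl
    · push Not at hinj
      obtain ⟨p, q, hp, hq, hpq, hne⟩ := hinj
      wlog hlt : p < q generalizing p q with H
      · exact H q p hq hp hpq.symm hne.symm (by omega)
      have h1 := ih (q - p) (by omega) (i + p) (by omega) (by omega)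
        (by rw [hpq]; congr 1; omega)
      refine h1.trans (Finset.sum_le_sum_of_subset_of_nonneg ?_ ?_)
      · intro j hj
        rw [Finset.mem_Ico] at hj ⊢
        omega
      · intro j hj _
        rw [Finset.mem_Ico] at hj
        exact (Γ.w_pos _ _ (hadj j (by omega))).le

/-! ### Reduced paths -/

/-- reduced paths of positive length, from the state `(b, c, s)` (the point at distance `s` from
`b` on the edge `b c`, moving towards `c`) to the state `(b', c', s')` -/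
inductive RP (Γ : MGraph V) (b c : V) (s : ℝ) : V → V → ℝ → ℝ → Prop
  | seg (s' : ℝ) : Γ.adj b c → 0 ≤ s → s < s' → s' ≤ Γ.w b c → RP Γ b c s b c s' (s' - s)
  | next (b' c' d : V) (s' L : ℝ) : RP Γ b c s b' c' (Γ.w b' c') L → Γ.adj c' d → d ≠ b' →
      0 < s' → s' ≤ Γ.w c' d → RP Γ b c s c' d s' (L + s')

section

variable {b c b' c' b'' c'' d : V} {s s' s'' L L' : ℝ}

theorem RP.start (h : RP Γ b c s b' c' s' L) : Γ.adj b c ∧ 0 ≤ s ∧ s < Γ.w b c := by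
  induction h with
  | seg s' h1 h2 h3 h4 => exact ⟨h1, h2, h3.trans_le h4⟩
  | next _ _ _ _ _ _ _ _ _ _ ih => exact ih

theorem RP.stop (h : RP Γ b c s b' c' s' L) : Γ.adj b' c' ∧ 0 < s' ∧ s' ≤ Γ.w b' c' := by
  cases h with
  | seg _ h1 h2 h3 h4 => exact ⟨h1, h2.trans_lt h3, h4⟩
  | next _ _ _ _ _ _ h1 _ h3 h4 => exact ⟨h1, h3, h4⟩

theorem RP.pos (h : RP Γ b c s b' c' s' L) : 0 < L := by
  induction h with
  | seg s' h1 h2 h3 h4 => linarith
  | next _ _ _ _ _ _ _ _ h _ ih => linarith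

theorem RP.cast (h : RP Γ b c s b' c' s' L) (hs : s' = s'') (hL : L = L') :
    RP Γ b c s b' c' s'' L' := by
  subst hs hL
  exact h

theorem RP.extend (h : RP Γ b c s b' c' s' L) (h1 : s' < s'') (h2 : s'' ≤ Γ.w b' c') :
    RP Γ b c s b' c' s'' (L + (s'' - s')) := by
  cases h with
  | seg _ h3 h4 h5 h6 =>
    exact (RP.seg (Γ := Γ) s'' h3 h4 (h5.trans h1) h2).cast rfl (by ring)
  | next b1 _ _ _ L1 h3 h4 h5 h6 h7 =>
    exact (RP.next _ _ _ _ _ h3 h4 h5 (h6.trans h1) h2).cast rfl (by ring)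

theorem RP.append (h : RP Γ b c s b' c' s' L) (h' : RP Γ b' c' s' b'' c'' s'' L') :
    RP Γ b c s b'' c'' s'' (L + L') := by
  induction h' with
  | seg s'' h1 h2 h3 h4 => exact h.extend h3 h4
  | next _ _ _ _ _ _ h1 h2 h3 h4 ih =>
    exact (RP.next _ _ _ _ _ ih h1 h2 h3 h4).cast rfl (by ring)

theorem RP.append_vertex (h : RP Γ b c s b' c' (Γ.w b' c') L)
    (h' : RP Γ c' d 0 b'' c'' s'' L') (hd : d ≠ b') : RP Γ b c s b'' c'' s'' (L + L') := by
  induction h' with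
  | seg s'' h1 h2 h3 h4 => exact (RP.next _ _ _ _ _ h h1 hd h3 h4).cast rfl (by ring)
  | next _ _ _ _ _ _ h1 h2 h3 h4 ih =>
    exact (RP.next _ _ _ _ _ ih h1 h2 h3 h4).cast rfl (by ring)

theorem RP.reverse (h : RP Γ b c s b' c' s' L) :
    RP Γ c' b' (Γ.w b' c' - s') c b (Γ.w b c - s) L := by
  induction h with
  | seg s' h1 h2 h3 h4 =>
    refine (RP.seg (Γ := Γ) (b := c) (c := b) (s := Γ.w b c - s') (Γ.w b c - s)
      (Γ.adj_symm _ _ h1) (by linarith) (by linarith) ?_).cast rfl (by ring)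
    rw [Γ.w_symm c b (Γ.adj_symm _ _ h1)]
    linarith
  | next b1 c1 d s' L h h1 h2 h3 h4 ih =>
    rw [sub_self] at ih
    have hw : Γ.w d c1 = Γ.w c1 d := Γ.w_symm _ _ (Γ.adj_symm _ _ h1)
    have h5 : RP Γ d c1 (Γ.w c1 d - s') d c1 (Γ.w d c1) s' :=
      (RP.seg (Γ := Γ) (b := d) (c := c1) (s := Γ.w c1 d - s') (Γ.w d c1)
        (Γ.adj_symm _ _ h1) (by linarith) (by linarith) le_rfl).cast rfl (by rw [hw]; ring)
    exact (h5.append_vertex ih h2.symm).cast rfl (by ring)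

theorem RP.split (h : RP Γ b c s b' c' s' L) (τ : ℝ) (h0 : 0 < τ) (h1 : τ < L) :
    (∃ β γ σ, 0 < σ ∧ σ < Γ.w β γ ∧ RP Γ b c s β γ σ τ ∧ RP Γ β γ σ b' c' s' (L - τ)) ∨
    ∃ β γ δ, δ ≠ β ∧ RP Γ b c s β γ (Γ.w β γ) τ ∧ RP Γ γ δ 0 b' c' s' (L - τ) := by
  induction h with
  | seg s' h2 h3 h4 h5 =>
    left
    exact ⟨b, c, s + τ, by linarith, by linarith,
      (RP.seg (Γ := Γ) (s + τ) h2 h3 (by linarith) (by linarith)).cast rfl (by ring),
      (RP.seg (Γ := Γ) (s := s + τ) s' h2 (by linarith) (by linarith) h5).cast rfl (by ring)⟩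
  | next b1 c1 d s' L h h2 h3 h4 h5 ih =>
    rcases lt_trichotomy τ L with h6 | h6 | h6
    · rcases ih h6 with ⟨β, γ, σ, a1, a2, a3, a4⟩ | ⟨β, γ, δ, a1, a2, a3⟩
      · exact Or.inl ⟨β, γ, σ, a1, a2, a3,
          (RP.next _ _ _ _ _ a4 h2 h3 h4 h5).cast rfl (by ring)⟩
      · exact Or.inr ⟨β, γ, δ, a1, a2, (RP.next _ _ _ _ _ a3 h2 h3 h4 h5).cast rfl (by ring)⟩
    · subst h6
      right
      exact ⟨b1, c1, d, h3, h,
        (RP.seg (Γ := Γ) s' h2 le_rfl h4 h5).cast rfl (by ring)⟩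
    · left
      exact ⟨c1, d, τ - L, by linarith, by linarith,
        (RP.next _ _ _ _ _ h h2 h3 (by linarith) (by linarith)).cast rfl (by ring),
        (RP.seg (Γ := Γ) s' h2 (by linarith) (by linarith) h5).cast rfl (by ring)⟩

theorem RP.seq (h : RP Γ b c s b' c' s' L) : ∃ (n : ℕ) (v : ℕ → V), v 0 = b ∧ v 1 = c ∧
    v n = b' ∧ v (n + 1) = c' ∧ (∀ i, i < n + 1 → Γ.adj (v i) (v (i + 1))) ∧
    (∀ i, i + 2 ≤ n + 1 → v i ≠ v (i + 2)) ∧
    ∑ i ∈ Finset.range (n + 1), Γ.w (v i) (v (i + 1)) = L + s + (Γ.w b' c' - s') := by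
  classical
  induction h with
  | seg s' h1 h2 h3 h4 =>
    refine ⟨0, fun i => if i = 0 then b else c, by simp, by simp, by simp, by simp, ?_, ?_, ?_⟩
    · intro i hi
      have : i = 0 := by omega
      subst this
      simpa using h1
    · intro i hi
      omega
    · simp
  | next b1 c1 d s' L h h1 h2 h3 h4 ih =>
    obtain ⟨n, v, e1, e2, e3, e4, e5, e6, e7⟩ := ih
    have hv : ∀ i, i ≤ n + 1 → (fun i => if i ≤ n + 1 then v i else d) i = v i :=
      fun i hi => if_pos hi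
    have hv' : (fun i => if i ≤ n + 1 then v i else d) (n + 2) = d := if_neg (by omega)
    refine ⟨n + 1, fun i => if i ≤ n + 1 then v i else d, ?_, ?_, ?_, ?_, ?_, ?_, ?_⟩
    · rw [hv 0 (by omega), e1]
    · rw [hv 1 (by omega), e2]
    · rw [hv _ le_rfl, e4]
    · exact hv'
    · intro i hi
      rw [hv i (by omega)]
      rcases Nat.lt_or_ge i (n + 1) with hi' | hi'
      · rw [hv (i + 1) (by omega)]
        exact e5 i hi'
      · have : i = n + 1 := by omega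
        subst this
        rw [show n + 1 + 1 = n + 2 by ring, hv', e4]
        exact h1
    · intro i hi
      rw [hv i (by omega)]
      rcases Nat.lt_or_ge i n with hi' | hi'
      · rw [hv (i + 2) (by omega)]
        exact e6 i (by omega)
      · have : i = n := by omega
        subst this
        rw [hv', e3]
        exact h2.symm
    · rw [Finset.sum_range_succ]
      have h5 : ∑ i ∈ Finset.range (n + 1), Γ.w ((fun i => if i ≤ n + 1 then v i else d) i)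
          ((fun i => if i ≤ n + 1 then v i else d) (i + 1)) =
          ∑ i ∈ Finset.range (n + 1), Γ.w (v i) (v (i + 1)) := by
        refine Finset.sum_congr rfl fun i hi => ?_
        have := Finset.mem_range.1 hi
        rw [hv i (by omega), hv (i + 1) (by omega)]
      rw [h5, e7, hv (n + 1) le_rfl, show n + 1 + 1 = n + 2 by ring, hv', e4]
      ring

theorem RP.closed0 (h : RP Γ b c 0 b' b (Γ.w b' b) L) : 2 * Real.pi ≤ L := by
  obtain ⟨n, v, e1, e2, e3, e4, e5, e6, e7⟩ := h.seq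
  have h1 := girth_seq v (n + 1) e5 e6 (n + 1) 0 (by omega) (by omega)
    (by rw [zero_add, e1, e4])
  rw [zero_add, ← Finset.range_eq_Ico, e7] at h1
  linarith

theorem RP.closed1 (h : RP Γ b c s b c s L) : 2 * Real.pi ≤ L := by
  obtain ⟨n, v, e1, e2, e3, e4, e5, e6, e7⟩ := h.seq
  have hL := h.pos
  have hn : 0 < n := by
    rcases Nat.eq_zero_or_pos n with rfl | hn
    · simp only [zero_add, Finset.range_one, Finset.sum_singleton, e1, e2] at e7
      linarith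
    · exact hn
  have h1 := girth_seq v (n + 1) e5 e6 n 0 hn (by omega) (by rw [zero_add, e1, e3])
  rw [zero_add, ← Finset.range_eq_Ico] at h1
  rw [Finset.sum_range_succ, e3, e4] at e7
  linarith

theorem RP.closed2 (h : RP Γ b c s c b (Γ.w b c - s) L) : 2 * Real.pi ≤ L := by
  obtain ⟨n, v, e1, e2, e3, e4, e5, e6, e7⟩ := h.seq
  have hst := h.start
  have hbc : b ≠ c := by
    rintro rfl
    exact Γ.adj_irrefl _ hst.1
  have hn0 : n ≠ 0 := by
    rintro rfl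
    exact hbc (e1.symm.trans e3)
  have hn1 : n ≠ 1 := by
    rintro rfl
    exact e6 0 (by omega) (by rw [zero_add, e1]; exact e4.symm)
  have h1 := girth_seq v (n + 1) e5 e6 (n - 1) 1 (by omega) (by omega)
    (by rw [e2, show 1 + (n - 1) = n by omega, e3])
  rw [show 1 + (n - 1) = n by omega] at h1
  rw [Finset.sum_range_succ, e3, e4, Finset.range_eq_Ico,
    Finset.sum_eq_sum_Ico_succ_bot (by omega : 0 < n), e1, zero_add, e2] at e7
  rw [Γ.w_symm c b (Γ.adj_symm _ _ hst.1)] at e7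
  linarith

end

/-! ### Points -/

/-- `x` is the vertex `v` -/
def At (x : Γ.Pt) (v : V) : Prop :=
  (x.s = 0 ∧ x.b = v) ∨ (Γ.adj x.b x.c ∧ x.s = Γ.w x.b x.c ∧ x.c = v)

/-- `x` is the interior point at distance `s` from `b` on the edge `b c` -/
def In (x : Γ.Pt) (b c : V) (s : ℝ) : Prop :=
  Γ.adj b c ∧ 0 < s ∧ s < Γ.w b c ∧
    ((x.b = b ∧ x.c = c ∧ x.s = s) ∨ (x.b = c ∧ x.c = b ∧ x.s = Γ.w b c - s))

theorem at_or_in (x : Γ.Pt) : (∃ v, At x v) ∨ ∃ b c s, In x b c s := by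
  rcases x.h with ⟨h1, h2, h3⟩ | ⟨h1, h2⟩
  · rcases h2.eq_or_lt with h4 | h4
    · exact Or.inl ⟨x.b, Or.inl ⟨h4.symm, rfl⟩⟩
    · rcases h3.eq_or_lt with h5 | h5
      · exact Or.inl ⟨x.c, Or.inr ⟨h1, h5, rfl⟩⟩
      · exact Or.inr ⟨x.b, x.c, x.s, h1, h4, h5, Or.inl ⟨rfl, rfl, rfl⟩⟩
  · exact Or.inl ⟨x.b, Or.inl ⟨h2, rfl⟩⟩

theorem At.unique {x : Γ.Pt} {v v' : V} (h : At x v) (h' : At x v') : v = v' := by
  rcases h with ⟨h1, h2⟩ | ⟨h0, h1, h2⟩ <;> rcases h' with ⟨h3, h4⟩ | ⟨h0', h3, h4⟩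
  · exact h2.symm.trans h4
  · have := Γ.w_pos _ _ h0'
    linarith
  · have := Γ.w_pos _ _ h0
    linarith
  · exact h2.symm.trans h4

theorem At.not_in {x : Γ.Pt} {v b c : V} {s : ℝ} (h : At x v) (h' : In x b c s) : False := by
  obtain ⟨h1, h2, h3, h4⟩ := h'
  have hw := Γ.w_symm _ _ h1
  rcases h with ⟨h5, h6⟩ | ⟨h5, h6, h7⟩ <;> rcases h4 with ⟨h8, h9, h10⟩ | ⟨h8, h9, h10⟩
  · linarith
  · linarith
  · rw [h8, h9] at h6
    linarith
  · rw [h8, h9] at h6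
    linarith

theorem In.cases {x : Γ.Pt} {b c b' c' : V} {s s' : ℝ} (h : In x b c s) (h' : In x b' c' s') :
    (b' = b ∧ c' = c ∧ s' = s) ∨ (b' = c ∧ c' = b ∧ s' = Γ.w b c - s) := by
  obtain ⟨h1, h2, h3, h4⟩ := h
  obtain ⟨h1', h2', h3', h4'⟩ := h'
  have hw := Γ.w_symm _ _ h1
  have hw' := Γ.w_symm _ _ h1'
  rcases h4 with ⟨rfl, rfl, h10⟩ | ⟨rfl, rfl, h10⟩ <;>
    rcases h4' with ⟨rfl, rfl, h13⟩ | ⟨rfl, rfl, h13⟩
  · exact Or.inl ⟨rfl, rfl, by linarith⟩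
  · exact Or.inr ⟨rfl, rfl, by linarith⟩
  · exact Or.inr ⟨rfl, rfl, by linarith⟩
  · exact Or.inl ⟨rfl, rfl, by linarith⟩

theorem In.flip {x : Γ.Pt} {b c : V} {s : ℝ} (h : In x b c s) : In x c b (Γ.w b c - s) := by
  obtain ⟨h1, h2, h3, h4⟩ := h
  have hw := Γ.w_symm _ _ h1
  refine ⟨Γ.adj_symm _ _ h1, by linarith, by linarith, ?_⟩
  rcases h4 with ⟨h8, h9, h10⟩ | ⟨h8, h9, h10⟩
  · exact Or.inr ⟨h8, h9, by linarith⟩
  · exact Or.inl ⟨h8, h9, h10⟩

/-- start of a path -/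
def Start (x : Γ.Pt) (b c : V) (s : ℝ) : Prop := (s = 0 ∧ At x b) ∨ In x b c s

/-- end of a path -/
def Stop (x : Γ.Pt) (b c : V) (s : ℝ) : Prop := (s = Γ.w b c ∧ At x c) ∨ In x b c s

/-- the same point -/
def Eqv (x y : Γ.Pt) : Prop := (∃ v, At x v ∧ At y v) ∨ ∃ b c s, In x b c s ∧ In y b c s

theorem Start.flip {x : Γ.Pt} {b c : V} {s : ℝ} (h : Start x b c s) (hadj : Γ.adj b c) :
    Stop x c b (Γ.w b c - s) := by
  rcases h with ⟨rfl, h⟩ | h
  · exact Or.inl ⟨by rw [sub_zero]; exact Γ.w_symm _ _ hadj, h⟩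
  · exact Or.inr h.flip

theorem Stop.flip {x : Γ.Pt} {b c : V} {s : ℝ} (h : Stop x b c s) :
    Start x c b (Γ.w b c - s) := by
  rcases h with ⟨rfl, h⟩ | h
  · exact Or.inl ⟨by rw [sub_self], h⟩
  · exact Or.inr h.flip

theorem Eqv.symm {x y : Γ.Pt} (h : Eqv x y) : Eqv y x := by
  rcases h with ⟨v, h1, h2⟩ | ⟨b, c, s, h1, h2⟩
  · exact Or.inl ⟨v, h2, h1⟩
  · exact Or.inr ⟨b, c, s, h2, h1⟩

theorem Eqv.refl (x : Γ.Pt) : Eqv x x := by
  rcases at_or_in x with ⟨v, h⟩ | ⟨b, c, s, h⟩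
  · exact Or.inl ⟨v, h, h⟩
  · exact Or.inr ⟨b, c, s, h, h⟩

theorem Eqv.at {x y : Γ.Pt} (h : Eqv x y) {v : V} (hx : At x v) : At y v := by
  rcases h with ⟨v', h1, h2⟩ | ⟨b, c, s, h1, h2⟩
  · rwa [hx.unique h1]
  · exact (hx.not_in h1).elim

theorem Eqv.in {x y : Γ.Pt} (h : Eqv x y) {b c : V} {s : ℝ} (hx : In x b c s) : In y b c s := by
  rcases h with ⟨v', h1, h2⟩ | ⟨b', c', s', h1, h2⟩
  · exact (h1.not_in hx).elim
  · rcases h1.cases hx with ⟨rfl, rfl, rfl⟩ | ⟨rfl, rfl, rfl⟩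
    · exact h2
    · exact h2.flip

theorem Eqv.start {x y : Γ.Pt} (h : Eqv x y) {b c : V} {s : ℝ} (hx : Start x b c s) :
    Start y b c s := hx.imp (fun h' => ⟨h'.1, h.at h'.2⟩) h.in

theorem Eqv.stop {x y : Γ.Pt} (h : Eqv x y) {b c : V} {s : ℝ} (hx : Stop x b c s) :
    Stop y b c s := hx.imp (fun h' => ⟨h'.1, h.at h'.2⟩) h.in

theorem Eqv.trans {x y z : Γ.Pt} (h : Eqv x y) (h' : Eqv y z) : Eqv x z := by
  rcases h with ⟨v, h1, h2⟩ | ⟨b, c, s, h1, h2⟩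
  · exact Or.inl ⟨v, h1, h'.at h2⟩
  · exact Or.inr ⟨b, c, s, h1, h'.in h2⟩

section

variable {b c b' c' b1 c1 b2 c2 : V} {s s' s1 s2 L L' L1 L2 : ℝ}

/-- a closed reduced path has length at least `2π` -/
theorem closed {x : Γ.Pt} (h : RP Γ b c s b' c' s' L) (h1 : Start x b c s)
    (h2 : Stop x b' c' s') : 2 * Real.pi ≤ L := by
  rcases h1 with ⟨rfl, h1⟩ | h1 <;> rcases h2 with ⟨rfl, h2⟩ | h2
  · have := h1.unique h2
    subst this
    exact h.closed0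
  · exact (h1.not_in h2).elim
  · exact (h2.not_in h1).elim
  · rcases h1.cases h2 with ⟨rfl, rfl, rfl⟩ | ⟨rfl, rfl, rfl⟩
    · exact h.closed1
    · exact h.closed2

theorem start_unique {x : Γ.Pt} (h1 : Start x b c s1) (h2 : Start x b c s2)
    (hbc : Γ.adj b c) : s1 = s2 := by
  rcases h1 with ⟨rfl, h1⟩ | h1 <;> rcases h2 with ⟨rfl, h2⟩ | h2
  · rfl
  · exact (h1.not_in h2).elim
  · exact (h2.not_in h1).elim
  · rcases h1.cases h2 with ⟨_, _, h3⟩ | ⟨h3, _, _⟩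
    · exact h3.symm
    · rw [h3] at hbc
      exact (Γ.adj_irrefl _ hbc).elim

/-- the point at the start of a path, reached from another path through `b` -/
theorem back {x : Γ.Pt} {β : V} (h2 : RP Γ b2 c2 s2 β b (Γ.w β b) L) (hadj : Γ.adj b c)
    (hne : c ≠ β) (hx : Start x b c s1)
    (h1' : s1 < Γ.w b c) : ∃ b' c' s', RP Γ b2 c2 s2 b' c' s' (L + s1) ∧ Stop x b' c' s' := by
  rcases hx with ⟨rfl, hx⟩ | hx
  · exact ⟨_, _, _, h2.cast rfl (by ring), Or.inl ⟨rfl, hx⟩⟩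
  · exact ⟨_, _, _, RP.next _ _ _ _ _ h2 hadj hne hx.2.1 h1'.le, Or.inr hx⟩

/-- two reduced paths from `x` which arrive in the same way -/
theorem fl_same (h1 : RP Γ b1 c1 s1 b' c' s' L1) : ∀ {b2 c2 : V} {s2 L2 : ℝ},
    RP Γ b2 c2 s2 b' c' s' L2 → ∀ x : Γ.Pt, Start x b1 c1 s1 → Start x b2 c2 s2 →
    L1 = L2 ∨ 2 * Real.pi ≤ L1 + L2 := by
  induction h1 with
  | seg s' a1 a2 a3 a4 =>
    intro b2 c2 s2 L2 h2 x hx1 hx2
    cases h2 with
    | seg _ e1 e2 e3 e4 =>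
      left
      rw [start_unique hx1 hx2 a1]
    | next β _ _ _ L2 e1 e2 e3 e4 e5 =>
      right
      obtain ⟨p, q, r, h3, h4⟩ := back e1 a1 e3 hx1 (a3.trans_le a4)
      have := closed h3 hx2 h4
      linarith
  | next β1 c' d s' L1 e1 e2 e3 e4 e5 ih =>
    intro b2 c2 s2 L2 h2 x hx1 hx2
    cases h2 with
    | seg _ a1 a2 a3 a4 =>
      right
      obtain ⟨p, q, r, h3, h4⟩ := back e1 a1 e3 hx2 (a3.trans_le a4)
      have := closed h3 hx1 h4
      linarith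
    | next β2 _ _ _ L2 f1 f2 f3 f4 f5 =>
      by_cases hβ : β1 = β2
      · subst hβ
        rcases ih f1 x hx1 hx2 with h | h
        · left; rw [h]
        · right; linarith
      · right
        have h3 := f1.reverse
        rw [sub_self] at h3
        have h4 := e1.append_vertex h3 (Ne.symm hβ)
        have := closed h4 hx1 (hx2.flip f1.start.1)
        linarith

/-- the length `L` is the length of a reduced path from `x` to `y` -/
def Ro (x y : Γ.Pt) (L : ℝ) : Prop :=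
  (L = 0 ∧ Eqv x y) ∨ ∃ b c s b' c' s', Start x b c s ∧ Stop y b' c' s' ∧ RP Γ b c s b' c' s' L

theorem Ro.symm {x y : Γ.Pt} (h : Ro x y L) : Ro y x L := by
  rcases h with ⟨h1, h2⟩ | ⟨b, c, s, b', c', s', h1, h2, h3⟩
  · exact Or.inl ⟨h1, h2.symm⟩
  · exact Or.inr ⟨c', b', _, c, b, _, h2.flip, h1.flip h3.start.1, h3.reverse⟩

theorem Ro.nonneg {x y : Γ.Pt} (h : Ro x y L) : 0 ≤ L := by
  rcases h with ⟨h1, h2⟩ | ⟨b, c, s, b', c', s', h1, h2, h3⟩
  · exact h1.ge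
  · exact h3.pos.le

theorem Ro.congr_right {x y z : Γ.Pt} (h : Ro x y L) (hyz : Eqv y z) : Ro x z L := by
  rcases h with ⟨h1, h2⟩ | ⟨b, c, s, b', c', s', h1, h2, h3⟩
  · exact Or.inl ⟨h1, h2.trans hyz⟩
  · exact Or.inr ⟨b, c, s, b', c', s', h1, hyz.stop h2, h3⟩

theorem Ro.congr_left {x y z : Γ.Pt} (h : Ro x y L) (hxz : Eqv x z) : Ro z y L :=
  (h.symm.congr_right hxz).symm

/-- how two paths arrive at the same point -/
theorem arrivals {y : Γ.Pt} (h1 : Stop y b1 c1 s1) (h2 : Stop y b2 c2 s2) :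
    (b1 = b2 ∧ c1 = c2 ∧ s1 = s2) ∨ (b2 = c1 ∧ c2 = b1 ∧ s2 = Γ.w b1 c1 - s1) ∨
      (s1 = Γ.w b1 c1 ∧ s2 = Γ.w b2 c2 ∧ c1 = c2 ∧ b1 ≠ b2) := by
  rcases h1 with ⟨rfl, h1⟩ | h1 <;> rcases h2 with ⟨rfl, h2⟩ | h2
  · have := h1.unique h2
    subst this
    by_cases hb : b1 = b2
    · subst hb
      exact Or.inl ⟨rfl, rfl, rfl⟩
    · exact Or.inr (Or.inr ⟨rfl, rfl, rfl, hb⟩)
  · exact (h1.not_in h2).elim
  · exact (h2.not_in h1).elim
  · rcases h1.cases h2 with ⟨rfl, rfl, rfl⟩ | ⟨rfl, rfl, rfl⟩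
    · exact Or.inl ⟨rfl, rfl, rfl⟩
    · exact Or.inr (Or.inl ⟨rfl, rfl, rfl⟩)

/-- concatenation of two paths arriving at the same point in different ways -/
theorem join {z : Γ.Pt} (h1 : RP Γ b1 c1 s1 b c s L1) (h2 : RP Γ b2 c2 s2 b' c' s' L2)
    (hz : Start z b2 c2 s2)
    (h : (b' = c ∧ c' = b ∧ s' = Γ.w b c - s) ∨
      (s = Γ.w b c ∧ s' = Γ.w b' c' ∧ c = c' ∧ b ≠ b')) :
    RP Γ b1 c1 s1 c2 b2 (Γ.w b2 c2 - s2) (L1 + L2) ∧ Stop z c2 b2 (Γ.w b2 c2 - s2) := by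
  refine ⟨?_, hz.flip h2.start.1⟩
  have h3 := h2.reverse
  rcases h with ⟨rfl, rfl, rfl⟩ | ⟨rfl, rfl, rfl, h4⟩
  · have hw : Γ.w b' c' - (Γ.w c' b' - s) = s := by
      rw [Γ.w_symm _ _ h2.stop.1]; ring
    rw [hw] at h3
    exact h1.append h3
  · rw [sub_self] at h3
    exact h1.append_vertex h3 h4.symm

theorem Ro.unique {x y : Γ.Pt} (h : Ro x y L) (h' : Ro x y L') :
    L = L' ∨ 2 * Real.pi ≤ L + L' := by
  rcases h with ⟨h1, h2⟩ | ⟨b, c, s, b', c', s', h1, h2, h3⟩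
  · rcases h' with ⟨h4, h5⟩ | ⟨b, c, s, b', c', s', h4, h5, h6⟩
    · left; rw [h1, h4]
    · right
      have := closed h6 (h2.start h4) h5
      linarith
  · rcases h' with ⟨h4, h5⟩ | ⟨b2, c2, s2, b2', c2', s2', h4, h5, h6⟩
    · right
      have := closed h3 h1 (h5.symm.stop h2)
      linarith
    · rcases arrivals h2 h5 with ⟨rfl, rfl, rfl⟩ | h7
      · exact fl_same h3 h6 x h1 h4
      · right
        obtain ⟨h8, h9⟩ := join h3 h6 h4 h7
        exact closed h8 h1 h9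

/-- two paths which arrive in the same way: cancellation -/
theorem tri_same (h1 : RP Γ b1 c1 s1 b' c' s' L1) : ∀ {b2 c2 : V} {s2 L2 : ℝ},
    RP Γ b2 c2 s2 b' c' s' L2 → ∀ x z : Γ.Pt, Start x b1 c1 s1 → Start z b2 c2 s2 →
    ∃ L, L ≤ L1 + L2 ∧ Ro x z L := by
  induction h1 with
  | seg s' a1 a2 a3 a4 =>
    intro b2 c2 s2 L2 h2 x z hx hz
    cases h2 with
    | seg _ e1 e2 e3 e4 =>
      rcases lt_trichotomy s1 s2 with h | h | h
      · refine ⟨s2 - s1, by linarith, Or.inr ⟨_, _, _, _, _, _, hx, ?_,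
          RP.seg s2 a1 a2 h (by linarith)⟩⟩
        rcases hz with ⟨h3, _⟩ | hz
        · linarith
        · exact Or.inr hz
      · subst h
        refine ⟨0, by linarith, Or.inl ⟨rfl, ?_⟩⟩
        rcases hx with ⟨h3, hx⟩ | hx <;> rcases hz with ⟨h4, hz⟩ | hz
        · exact Or.inl ⟨_, hx, hz⟩
        · have := hz.2.1
          linarith
        · have := hx.2.1
          linarith
        · exact Or.inr ⟨_, _, _, hx, hz⟩
      · refine ⟨s1 - s2, by linarith, Ro.symm (Or.inr ⟨_, _, _, _, _, _, hz, ?_,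
          RP.seg s1 a1 e2 h (by linarith)⟩)⟩
        rcases hx with ⟨h3, _⟩ | hx
        · linarith
        · exact Or.inr hx
    | next β _ _ _ L2 e1 e2 e3 e4 e5 =>
      obtain ⟨p, q, r, h3, h4⟩ := back e1 a1 e3 hx (a3.trans_le a4)
      exact ⟨L2 + s1, by linarith, Ro.symm (Or.inr ⟨_, _, _, _, _, _, hz, h4, h3⟩)⟩
  | next β1 c' d s' L1 e1 e2 e3 e4 e5 ih =>
    intro b2 c2 s2 L2 h2 x z hx hz
    cases h2 with
    | seg _ a1 a2 a3 a4 =>
      obtain ⟨p, q, r, h3, h4⟩ := back e1 a1 e3 hz (a3.trans_le a4)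
      exact ⟨L1 + s2, by linarith, Or.inr ⟨_, _, _, _, _, _, hx, h4, h3⟩⟩
    | next β2 _ _ _ L2 f1 f2 f3 f4 f5 =>
      by_cases hβ : β1 = β2
      · subst hβ
        obtain ⟨L, hL, hL'⟩ := ih f1 x z hx hz
        exact ⟨L, by linarith, hL'⟩
      · obtain ⟨h8, h9⟩ := join e1 f1 hz (Or.inr ⟨rfl, rfl, rfl, hβ⟩)
        exact ⟨L1 + L2, by linarith, Or.inr ⟨_, _, _, _, _, _, hx, h9, h8⟩⟩

theorem Ro.trans {x y z : Γ.Pt} (h : Ro x y L) (h' : Ro y z L') :
    ∃ L'', L'' ≤ L + L' ∧ Ro x z L'' := by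
  rcases h with ⟨h1, h2⟩ | ⟨b, c, s, b', c', s', h1, h2, h3⟩
  · exact ⟨L', by linarith, h'.congr_left h2.symm⟩
  · rcases h'.symm with ⟨h4, h5⟩ | ⟨b2, c2, s2, b2', c2', s2', h4, h5, h6⟩
    · refine ⟨L, by linarith, Ro.congr_right (Or.inr ⟨b, c, s, b', c', s', h1, h2, h3⟩) h5.symm⟩
    · rcases arrivals h2 h5 with ⟨rfl, rfl, rfl⟩ | h7
      · exact tri_same h3 h6 x z h1 h4
      · obtain ⟨h8, h9⟩ := join h3 h6 h4 h7
        exact ⟨L + L', le_rfl, Or.inr ⟨_, _, _, _, _, _, h1, h9, h8⟩⟩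

end

/-! ### The truncated metric -/

open Classical in
/-- the metric truncated at `π` -/
noncomputable def lm (Γ : MGraph V) (x y : Γ.Pt) : ℝ :=
  if h : ∃ L, L < Real.pi ∧ Ro x y L then h.choose else Real.pi

section

variable {x y z : Γ.Pt} {L : ℝ}

theorem lm_eq (h : Ro x y L) (hL : L < Real.pi) : lm Γ x y = L := by
  have hex : ∃ L, L < Real.pi ∧ Ro x y L := ⟨L, hL, h⟩
  unfold lm
  rw [dif_pos hex]
  obtain ⟨h1, h2⟩ := hex.choose_spec
  rcases h2.unique h with h3 | h3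
  · exact h3
  · linarith

theorem lm_cases (x y : Γ.Pt) : (∃ L, L < Real.pi ∧ Ro x y L ∧ lm Γ x y = L) ∨
    (lm Γ x y = Real.pi ∧ ∀ L, Ro x y L → Real.pi ≤ L) := by
  by_cases hex : ∃ L, L < Real.pi ∧ Ro x y L
  · obtain ⟨L, h1, h2⟩ := hex
    exact Or.inl ⟨L, h1, h2, lm_eq h2 h1⟩
  · right
    refine ⟨by unfold lm; rw [dif_neg hex], ?_⟩
    intro L hL
    by_contra hcon
    exact hex ⟨L, not_le.1 hcon, hL⟩

theorem lm_ro (h : lm Γ x y < Real.pi) : Ro x y (lm Γ x y) := by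
  rcases lm_cases x y with ⟨L, h1, h2, h3⟩ | ⟨h1, _⟩
  · rw [h3]; exact h2
  · linarith

theorem lm_nonneg (x y : Γ.Pt) : 0 ≤ lm Γ x y := by
  rcases lm_cases x y with ⟨L, h1, h2, h3⟩ | ⟨h1, _⟩
  · rw [h3]; exact h2.nonneg
  · rw [h1]; exact Real.pi_pos.le

theorem lm_le_pi (x y : Γ.Pt) : lm Γ x y ≤ Real.pi := by
  rcases lm_cases x y with ⟨L, h1, h2, h3⟩ | ⟨h1, _⟩
  · rw [h3]; exact h1.le
  · exact h1.le

theorem lm_le (h : Ro x y L) : lm Γ x y ≤ L := by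
  rcases lt_or_ge L Real.pi with h1 | h1
  · exact (lm_eq h h1).le
  · exact (lm_le_pi x y).trans h1

theorem lm_eqv (h : Eqv x y) : lm Γ x y = 0 := lm_eq (Or.inl ⟨rfl, h⟩) Real.pi_pos

theorem lm_symm (x y : Γ.Pt) : lm Γ x y = lm Γ y x := by
  rcases lm_cases x y with ⟨L, h1, h2, h3⟩ | ⟨h1, h2⟩
  · rw [h3, lm_eq h2.symm h1]
  · rcases lm_cases y x with ⟨L, h4, h5, h6⟩ | ⟨h4, _⟩
    · have := h2 L h5.symm
      linarith
    · rw [h1, h4]

theorem lm_tri (x y z : Γ.Pt) : lm Γ x z ≤ lm Γ x y + lm Γ y z := by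
  have h1 := lm_nonneg x y
  have h2 := lm_nonneg y z
  rcases lt_or_ge (lm Γ x y) Real.pi with h3 | h3
  · rcases lt_or_ge (lm Γ y z) Real.pi with h4 | h4
    · obtain ⟨L, h5, h6⟩ := (lm_ro h3).trans (lm_ro h4)
      exact (lm_le h6).trans h5
    · have := lm_le_pi x z
      linarith
  · have := lm_le_pi x z
    linarith

theorem cos_le (h : Ro z y L) (h2 : L < 2 * Real.pi) : Real.cos (lm Γ z y) ≤ Real.cos L := by
  rcases lm_cases z y with ⟨M, h3, h4, h5⟩ | ⟨h3, _⟩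
  · rw [h5]
    rcases h4.unique h with h6 | h6
    · rw [h6]
    · rw [← Real.cos_two_pi_sub L]
      apply Real.cos_le_cos_of_nonneg_of_le_pi
      · linarith
      · exact h3.le
      · linarith
  · rw [h3, Real.cos_pi]
    exact Real.neg_one_le_cos _

theorem same_eqv (h : Γ.Same x y) : Eqv x y := by
  rcases h with ⟨h1, h2, h3⟩ | ⟨h0, h1, h2, h3⟩
  · exact Or.inl ⟨x.b, Or.inl ⟨h2, rfl⟩, Or.inl ⟨h3, h1.symm⟩⟩
  · have hne : x.b ≠ x.c := by
      intro h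
      rw [h] at h0
      exact Γ.adj_irrefl _ h0
    have hw := Γ.w_symm _ _ h0
    have hadj : Γ.adj y.b y.c := by
      rw [← h1, ← h2]
      exact Γ.adj_symm _ _ h0
    rcases x.h with ⟨_, h4, h5⟩ | ⟨h4, _⟩
    · rcases h4.eq_or_lt with h6 | h6
      · refine Or.inl ⟨x.b, Or.inl ⟨h6.symm, rfl⟩, Or.inr ⟨hadj, ?_, h1.symm⟩⟩
        rw [← h1, ← h2, ← hw]
        linarith
      · rcases h5.eq_or_lt with h7 | h7
        · refine Or.inl ⟨x.c, Or.inr ⟨h0, h7, rfl⟩, Or.inl ⟨by linarith, h2.symm⟩⟩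
        · refine Or.inr ⟨x.b, x.c, x.s, ⟨h0, h6, h7, Or.inl ⟨rfl, rfl, rfl⟩⟩, h0, h6, h7,
            Or.inr ⟨h2.symm, h1.symm, by linarith⟩⟩
    · exact (hne h4).elim

/-- the point at distance `s` from `b` on the edge `b c` -/
def pt (b c : V) (s : ℝ) (h : Γ.adj b c) (h1 : 0 ≤ s) (h2 : s ≤ Γ.w b c) : Γ.Pt :=
  ⟨b, c, s, Or.inl ⟨h, h1, h2⟩⟩

theorem start_pt {b c : V} {s : ℝ} (h : Γ.adj b c) (h1 : 0 ≤ s) (h2 : s < Γ.w b c)
    (hx : x.b = b) (hx' : x.c = c) (hs : x.s = s) : Start x b c s := by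
  rcases h1.eq_or_lt with h3 | h3
  · exact Or.inl ⟨h3.symm, Or.inl ⟨by rw [hs, h3], hx⟩⟩
  · exact Or.inr ⟨h, h3, h2, Or.inl ⟨hx, hx', hs⟩⟩

theorem stop_pt {b c : V} {s : ℝ} (h : Γ.adj b c) (h1 : 0 < s) (h2 : s ≤ Γ.w b c)
    (hx : x.b = b) (hx' : x.c = c) (hs : x.s = s) : Stop x b c s := by
  rcases h2.eq_or_lt with h3 | h3
  · refine Or.inl ⟨h3, Or.inr ⟨by rw [hx, hx']; exact h, by rw [hs, hx, hx', h3], hx'⟩⟩
  · exact Or.inr ⟨h, h1, h3, Or.inl ⟨hx, hx', hs⟩⟩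

theorem lm_edge (x y : Γ.Pt) (hb : x.b = y.b) (hc : x.c = y.c) : lm Γ x y = |x.s - y.s| := by
  wlog hle : x.s ≤ y.s generalizing x y with H
  · rw [lm_symm, H y x hb.symm hc.symm (by linarith), abs_sub_comm]
  rcases x.h with ⟨h1, h2, h3⟩ | ⟨h1, h2⟩
  · rcases y.h with ⟨h4, h5, h6⟩ | ⟨h4, h5⟩
    · rcases hle.eq_or_lt with h7 | h7
      · rw [h7, sub_self, abs_zero]
        apply lm_eqv
        rcases h5.eq_or_lt with h8 | h8
        · exact Or.inl ⟨x.b, Or.inl ⟨by rw [h7, h8], rfl⟩, Or.inl ⟨h8.symm, hb.symm⟩⟩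
        · rcases h6.eq_or_lt with h9 | h9
          · exact Or.inl ⟨x.c, Or.inr ⟨h1, by rw [h7, h9, hb, hc], rfl⟩,
              Or.inr ⟨h4, h9, hc.symm⟩⟩
          · exact Or.inr ⟨y.b, y.c, y.s, ⟨h4, h8, h9, Or.inl ⟨hb, hc, h7⟩⟩, h4, h8, h9,
              Or.inl ⟨rfl, rfl, rfl⟩⟩
      · have h8 : Ro x y (y.s - x.s) :=
          Or.inr ⟨y.b, y.c, x.s, y.b, y.c, y.s,
            start_pt h4 h2 (h7.trans_le h6) hb hc rfl,
            stop_pt h4 (h2.trans_lt h7) h6 rfl rfl rfl, RP.seg _ h4 h2 h7 h6⟩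
        rw [lm_eq h8 (by linarith [Γ.w_lt _ _ h4]), abs_sub_comm, abs_of_nonneg (by linarith)]
    · exfalso
      rw [hb, hc, h4] at h1
      exact Γ.adj_irrefl _ h1
  · rcases y.h with ⟨h4, h5, h6⟩ | ⟨h4, h5⟩
    · exfalso
      rw [← hb, ← hc, h1] at h4
      exact Γ.adj_irrefl _ h4
    · rw [h2, h5, sub_self, abs_zero]
      exact lm_eqv (Or.inl ⟨x.b, Or.inl ⟨h2, rfl⟩, Or.inl ⟨h5, hb.symm⟩⟩)

theorem lm_pt {b c : V} {s s' : ℝ} (h : Γ.adj b c) (h1 : 0 ≤ s) (h2 : s ≤ Γ.w b c)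
    (h1' : 0 ≤ s') (h2' : s' ≤ Γ.w b c) :
    lm Γ (pt b c s h h1 h2) (pt b c s' h h1' h2') = |s - s'| := lm_edge _ _ rfl rfl

/-! ### Midpoints -/

/-- at `m` two paths meet in opposite directions -/
theorem lm_mid (x y : Γ.Pt) (hxy : lm Γ x y < Real.pi) (t : ℝ) (ht0 : 0 ≤ t) (ht1 : t ≤ 1) :
    ∃ m, lm Γ x m = t * lm Γ x y ∧ lm Γ m y = (1 - t) * lm Γ x y ∧
      ∀ z, Real.cos (lm Γ z y) ≤ Real.cos (lm Γ z m + lm Γ m y) ∨
        Real.cos (lm Γ z x) ≤ Real.cos (lm Γ z m + lm Γ m x) := by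
  have hself : ∀ x : Γ.Pt, lm Γ x x = 0 := fun x => lm_eqv (Eqv.refl x)
  have hro := lm_ro hxy
  set A := lm Γ x y with hA
  have hA0 : 0 ≤ A := lm_nonneg x y
  rcases ht0.eq_or_lt with rfl | ht0
  · refine ⟨x, by rw [hself]; ring, by rw [← hA]; ring, fun z => Or.inr ?_⟩
    rw [hself, add_zero]
  rcases ht1.eq_or_lt with rfl | ht1
  · refine ⟨y, by rw [← hA]; ring, by rw [hself]; ring, fun z => Or.inl ?_⟩
    rw [hself, add_zero]
  rcases hA0.eq_or_lt with hA0 | hA0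
  · refine ⟨x, by rw [hself, ← hA0]; ring, by rw [← hA, ← hA0]; ring, fun z => Or.inr ?_⟩
    rw [hself, add_zero]
  rcases hro with ⟨h1, _⟩ | ⟨b, c, s, b', c', s', h1, h2, h3⟩
  · linarith
  have hτ0 : 0 < t * A := mul_pos ht0 hA0
  have hτ1 : t * A < A := by nlinarith
  -- it is enough to continue all short paths to `m`
  suffices H : ∃ m : Γ.Pt, Ro x m (t * A) ∧ Ro m y (A - t * A) ∧
      ∀ z K, Ro z m K → Ro z y (K + (A - t * A)) ∨ Ro z x (K + t * A) by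
    obtain ⟨m, hm1, hm2, hm3⟩ := H
    have e1 : lm Γ x m = t * A := lm_eq hm1 (by linarith)
    have e2 : lm Γ m y = A - t * A := lm_eq hm2 (by linarith)
    have e3 : lm Γ m x = t * A := by rw [lm_symm, e1]
    refine ⟨m, e1, by rw [e2]; ring, fun z => ?_⟩
    rw [e2, e3]
    rcases lt_or_ge (lm Γ z m) Real.pi with h4 | h4
    · rcases hm3 z _ (lm_ro h4) with h5 | h5
      · left
        exact cos_le h5 (by linarith)
      · right
        exact cos_le h5 (by linarith)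
    · left
      have h5 : lm Γ z m = Real.pi := le_antisymm (lm_le_pi _ _) h4
      rw [h5, add_comm, Real.cos_add_pi, ← Real.cos_pi_sub]
      have h6 := lm_tri z y m
      rw [h5, lm_symm y m, e2] at h6
      apply Real.cos_le_cos_of_nonneg_of_le_pi
      · linarith
      · exact lm_le_pi _ _
      · linarith
  rcases h3.split (t * A) hτ0 hτ1 with ⟨β, γ, σ, a1, a2, a3, a4⟩ | ⟨β, γ, δ, a1, a2, a3⟩
  · have hadj := a3.stop.1
    have hm : In (Γ := Γ) (pt β γ σ hadj a1.le a2.le) β γ σ :=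
      ⟨hadj, a1, a2, Or.inl ⟨rfl, rfl, rfl⟩⟩
    have hro2 : Ro (pt β γ σ hadj a1.le a2.le) y (A - t * A) :=
      Or.inr ⟨_, _, _, _, _, _, Or.inr hm, h2, a4⟩
    refine ⟨pt β γ σ hadj a1.le a2.le, Or.inr ⟨_, _, _, _, _, _, h1, Or.inr hm, a3⟩, hro2, ?_⟩
    intro z K hK
    rcases hK with ⟨rfl, h5⟩ | ⟨p, q, r, p', q', r', h5, h6, h7⟩
    · left
      rw [zero_add]
      exact hro2.congr_left h5.symm
    · rcases h6 with ⟨_, h6⟩ | h6
      · exact (h6.not_in hm).elim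
      · rcases hm.cases h6 with ⟨rfl, rfl, rfl⟩ | ⟨rfl, rfl, rfl⟩
        · left
          exact Or.inr ⟨_, _, _, _, _, _, h5, h2, h7.append a4⟩
        · right
          exact Or.inr ⟨_, _, _, _, _, _, h5, h1.flip a3.start.1, h7.append a3.reverse⟩
  · have hm : At (Γ.vtx γ) γ := Or.inl ⟨rfl, rfl⟩
    have hro2 : Ro (Γ.vtx γ) y (A - t * A) :=
      Or.inr ⟨_, _, _, _, _, _, Or.inl ⟨rfl, hm⟩, h2, a3⟩
    refine ⟨Γ.vtx γ, Or.inr ⟨_, _, _, _, _, _, h1, Or.inl ⟨rfl, hm⟩, a2⟩, hro2, ?_⟩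
    intro z K hK
    rcases hK with ⟨rfl, h5⟩ | ⟨p, q, r, p', q', r', h5, h6, h7⟩
    · left
      rw [zero_add]
      exact hro2.congr_left h5.symm
    · rcases h6 with ⟨rfl, h6⟩ | h6
      · have := hm.unique h6
        subst this
        by_cases hp : p' = δ
        · right
          have h8 := a2.reverse
          rw [sub_self] at h8
          refine Or.inr ⟨_, _, _, _, _, _, h5, h1.flip a2.start.1, h7.append_vertex h8 ?_⟩
          rw [hp]
          exact a1.symm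
        · left
          exact Or.inr ⟨_, _, _, _, _, _, h5, h2, h7.append_vertex a3 (Ne.symm hp)⟩
      · exact (hm.not_in h6).elim

/-! ### Chains -/

/-- chains of points on common edges -/
def Ch (x y : Γ.Pt) (L : ℝ) : Prop := ∃ (n : ℕ) (p : ℕ → Γ.Pt), p 0 = x ∧ p n = y ∧
  (∀ i, i < n → Γ.Same (p i) (p (i + 1)) ∨
    ((p i).b = (p (i + 1)).b ∧ (p i).c = (p (i + 1)).c)) ∧
  ∑ i ∈ Finset.range n, lm Γ (p i) (p (i + 1)) = L

theorem Ch.refl (x : Γ.Pt) : Ch x x 0 := ⟨0, fun _ => x, rfl, rfl, by simp, by simp⟩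

theorem Ch.snoc {L' : ℝ} (h : Ch x y L) (h' : Γ.Same y z ∨ (y.b = z.b ∧ y.c = z.c))
    (hL : L + lm Γ y z = L') : Ch x z L' := by
  classical
  obtain ⟨n, p, h0, hn, hp, hs⟩ := h
  have hv : ∀ i, i ≤ n → (fun i => if i ≤ n then p i else z) i = p i := fun i hi => if_pos hi
  have hv' : (fun i => if i ≤ n then p i else z) (n + 1) = z := if_neg (by omega)
  refine ⟨n + 1, fun i => if i ≤ n then p i else z, ?_, hv', ?_, ?_⟩
  · rw [hv 0 (by omega), h0]
  · intro i hi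
    rw [hv i (by omega)]
    rcases Nat.lt_or_ge i n with hi' | hi'
    · rw [hv (i + 1) (by omega)]
      exact hp i hi'
    · have : i = n := by omega
      subst this
      rw [hv', hn]
      exact h'
  · rw [Finset.sum_range_succ, hv n le_rfl, hv', hn, ← hL, ← hs]
    congr 1
    refine Finset.sum_congr rfl fun i hi => ?_
    have := Finset.mem_range.1 hi
    rw [hv i (by omega), hv (i + 1) (by omega)]

theorem Ch.same (h : Ch x y L) (h' : Γ.Same y z) : Ch x z L :=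
  h.snoc (Or.inl h') (by rw [lm_eqv (same_eqv h'), add_zero])

/-- from a point to a description of it as a vertex -/
theorem Ch.to_vtx {v : V} (h : Ch x y L) (hy : At y v) : Ch x (Γ.vtx v) L := by
  rcases hy with ⟨h1, rfl⟩ | ⟨h0, h1, rfl⟩
  · exact h.same (Or.inl ⟨rfl, h1, rfl⟩)
  · have h2 : Γ.Same y (pt y.c y.b 0 (Γ.adj_symm _ _ h0) le_rfl
        (Γ.w_pos _ _ (Γ.adj_symm _ _ h0)).le) :=
      Or.inr ⟨h0, rfl, rfl, by rw [h1]; simp [pt]⟩
    exact (h.same h2).same (Or.inl ⟨rfl, rfl, rfl⟩)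

/-- from a vertex to another description of it -/
theorem Ch.of_vtx {v : V} (h : Ch x (Γ.vtx v) L) (hy : At y v) : Ch x y L := by
  rcases hy with ⟨h1, rfl⟩ | ⟨h0, h1, rfl⟩
  · exact h.same (Or.inl ⟨rfl, rfl, h1⟩)
  · have h2 : Γ.Same (Γ.vtx y.c) (pt y.c y.b 0 (Γ.adj_symm _ _ h0) le_rfl
        (Γ.w_pos _ _ (Γ.adj_symm _ _ h0)).le) := Or.inl ⟨rfl, rfl, rfl⟩
    refine (h.same h2).same (Or.inr ⟨Γ.adj_symm _ _ h0, rfl, rfl, ?_⟩)
    rw [h1]
    simp only [pt]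
    rw [Γ.w_symm _ _ h0]
    ring

theorem Ch.to_in {b c : V} {s : ℝ} (h : Ch x y L) (hy : In y b c s) :
    Ch x (pt b c s hy.1 hy.2.1.le hy.2.2.1.le) L := by
  have hs := hy.2.1.le
  obtain ⟨h0, h1, h2, h3⟩ := hy
  rcases h3 with ⟨h4, h5, h6⟩ | ⟨h4, h5, h6⟩
  · refine h.snoc (Or.inr ⟨h4, h5⟩) ?_
    rw [lm_edge _ _ h4 h5]
    change L + |y.s - s| = L
    rw [h6]
    simp
  · refine h.same (Or.inr ⟨?_, h4, h5, ?_⟩)
    · rw [h4, h5]
      exact Γ.adj_symm _ _ h0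
    · change y.s = Γ.w y.b y.c - s
      rw [h6, h4, h5, Γ.w_symm _ _ h0]

theorem Ch.of_in {b c : V} {s : ℝ} (hy : In y b c s)
    (h : Ch x (pt b c s hy.1 hy.2.1.le hy.2.2.1.le) L) : Ch x y L := by
  have hs := hy.2.1.le
  obtain ⟨h0, h1, h2, h3⟩ := hy
  rcases h3 with ⟨h4, h5, h6⟩ | ⟨h4, h5, h6⟩
  · refine h.snoc (Or.inr ⟨h4.symm, h5.symm⟩) ?_
    rw [lm_edge _ _ h4.symm h5.symm]
    change L + |s - y.s| = L
    rw [h6]
    simp
  · refine h.same (Or.inr ⟨h0, h5.symm, h4.symm, ?_⟩)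
    change s = Γ.w b c - y.s
    rw [h6]
    ring

theorem Ch.to_eqv {w : Γ.Pt} (h : Ch x y L) (hyz : Eqv y w) : Ch x w L := by
  rcases hyz with ⟨v, h1, h2⟩ | ⟨b, c, s, h1, h2⟩
  · exact (h.to_vtx h1).of_vtx h2
  · exact Ch.of_in h2 (h.to_in h1)

theorem Ch.of_rp {b c s b' c' s' M : _} (h : RP Γ b c s b' c' s' M) :
    Ch x (pt b c s h.start.1 h.start.2.1 h.start.2.2.le) L →
      Ch x (pt b' c' s' h.stop.1 h.stop.2.1.le h.stop.2.2) (L + M) := by
  induction h with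
  | seg s' h1 h2 h3 h4 =>
    intro h
    refine h.snoc (Or.inr ⟨rfl, rfl⟩) ?_
    rw [lm_pt, abs_sub_comm, abs_of_nonneg (by linarith)]
  | next b1 c1 d s' M h h1 h2 h3 h4 ih =>
    intro hw
    have h5 := ih hw
    have h6 : Ch x (Γ.vtx c1) (L + M) := h5.to_vtx (Or.inr ⟨h.stop.1, rfl, rfl⟩)
    have h7 : Ch x (pt c1 d 0 h1 le_rfl (Γ.w_pos _ _ h1).le) (L + M) :=
      h6.of_vtx (Or.inl ⟨rfl, rfl⟩)
    refine h7.snoc (Or.inr ⟨rfl, rfl⟩) ?_
    rw [lm_pt, abs_sub_comm, sub_zero, abs_of_nonneg h3.le]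
    ring

theorem lm_chain (x y : Γ.Pt) (hxy : lm Γ x y < Real.pi) : Ch x y (lm Γ x y) := by
  have hro := lm_ro hxy
  rcases hro with ⟨h1, h2⟩ | ⟨b, c, s, b', c', s', h1, h2, h3⟩
  · rw [h1]
    exact (Ch.refl x).to_eqv h2
  · have h4 : Ch x (pt b c s h3.start.1 h3.start.2.1 h3.start.2.2.le) 0 := by
      refine (Ch.refl x).to_eqv ?_
      rcases h1 with ⟨rfl, h1⟩ | h1
      · exact Or.inl ⟨b, h1, Or.inl ⟨rfl, rfl⟩⟩
      · exact Or.inr ⟨b, c, s, h1, h1.1, h1.2.1, h1.2.2.1, Or.inl ⟨rfl, rfl, rfl⟩⟩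
    have h5 := Ch.of_rp h3 h4
    rw [zero_add] at h5
    refine h5.to_eqv ?_
    rcases h2 with ⟨h6, h2⟩ | h2
    · exact Or.inl ⟨c', Or.inr ⟨h3.stop.1, h6, rfl⟩, h2⟩
    · exact Or.inr ⟨b', c', s', ⟨h2.1, h2.2.1, h2.2.2.1, Or.inl ⟨rfl, rfl, rfl⟩⟩, h2⟩

/-! ### Paths -/

theorem at_vtx (v : V) : At (Γ.vtx v) v := Or.inl ⟨rfl, rfl⟩

/-- a path which arrives at `c` from `b` -/
def Arr (ξ : Γ.Pt) (b c : V) (f : ℝ) : Prop :=
  ∃ p q r, Start ξ p q r ∧ RP Γ p q r b c (Γ.w b c) f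

theorem Arr.ro {ξ : Γ.Pt} {b c : V} {f : ℝ} (h : Arr ξ b c f) : Ro ξ (Γ.vtx c) f := by
  obtain ⟨p, q, r, h1, h2⟩ := h
  exact Or.inr ⟨_, _, _, _, _, _, h1, Or.inl ⟨rfl, at_vtx c⟩, h2⟩

theorem Arr.next {ξ : Γ.Pt} {b c d : V} {f : ℝ} (h : Arr ξ b c f) (hcd : Γ.adj c d)
    (hd : d ≠ b) : Arr ξ c d (f + Γ.w c d) := by
  obtain ⟨p, q, r, h1, h2⟩ := h
  exact ⟨p, q, r, h1, RP.next _ _ _ _ _ h2 hcd hd (Γ.w_pos _ _ hcd) le_rfl⟩

theorem lm_path (ξ : Γ.Pt) (n : ℕ) (c : ℕ → V)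
    (hinj : ∀ i j, i ≤ n → j ≤ n → c i = c j → i = j)
    (hadj : ∀ i, i < n → Γ.adj (c i) (c (i + 1)))
    (hlt : ∀ i, i ≤ n → lm Γ ξ (Γ.vtx (c i)) < Real.pi / 2) :
    ∑ i ∈ Finset.range n, Γ.w (c i) (c (i + 1)) ≤
      lm Γ ξ (Γ.vtx (c 0)) + lm Γ ξ (Γ.vtx (c n)) := by
  have hpi := Real.pi_pos
  have hro : ∀ i, i ≤ n → Ro ξ (Γ.vtx (c i)) (lm Γ ξ (Γ.vtx (c i))) := fun i hi =>
    lm_ro ((hlt i hi).trans (by linarith))
  -- paths to `c (i + 1)` through `c i`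
  have hup : ∀ i, i < n → Ro ξ (Γ.vtx (c (i + 1))) (lm Γ ξ (Γ.vtx (c i)) + Γ.w (c i) (c (i + 1)))
      → lm Γ ξ (Γ.vtx (c (i + 1))) = lm Γ ξ (Γ.vtx (c i)) + Γ.w (c i) (c (i + 1)) := by
    intro i hi h
    rcases (hro (i + 1) hi).unique h with h1 | h1
    · exact h1
    · have h2 := hlt i hi.le
      have h3 := hlt (i + 1) hi
      have h4 := Γ.w_lt _ _ (hadj i hi)
      linarith
  have key : ∀ i, i ≤ n → (∑ j ∈ Finset.range i, Γ.w (c j) (c (j + 1)) =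
        lm Γ ξ (Γ.vtx (c 0)) - lm Γ ξ (Γ.vtx (c i))) ∨
      (∑ j ∈ Finset.range i, Γ.w (c j) (c (j + 1)) ≤
        lm Γ ξ (Γ.vtx (c 0)) + lm Γ ξ (Γ.vtx (c i)) ∧
        ∃ k, i = k + 1 ∧ Arr ξ (c k) (c i) (lm Γ ξ (Γ.vtx (c i)))) := by
    intro i
    induction i with
    | zero => intro _; left; simp
    | succ i ih =>
      intro hi
      have hi' : i < n := hi
      rw [Finset.sum_range_succ]
      have hadji := hadj i hi'
      have hw := Γ.w_symm _ _ hadji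
      rcases ih hi'.le with h1 | ⟨h1, k, rfl, h2⟩
      · rcases hro i hi'.le with ⟨h2, h3⟩ | ⟨p, q, r, p', q', r', h3, h4, h5⟩
        · -- `ξ = c i`
          right
          have h4 : At ξ (c i) := h3.symm.at (at_vtx _)
          have h5 : Arr ξ (c i) (c (i + 1)) (lm Γ ξ (Γ.vtx (c i)) + Γ.w (c i) (c (i + 1))) := by
            refine ⟨c i, c (i + 1), 0, Or.inl ⟨rfl, h4⟩, ?_⟩
            exact (RP.seg _ hadji le_rfl (Γ.w_pos _ _ hadji) le_rfl).cast rfl (by rw [h2]; ring)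
          have h6 := hup i hi' h5.ro
          refine ⟨by linarith, i, rfl, ?_⟩
          rw [h6]
          exact h5
        · rcases h4 with ⟨rfl, h4⟩ | h4
          · have h6 : q' = c i := h4.unique (at_vtx _)
            subst h6
            by_cases hp : c (i + 1) = p'
            · -- the path arrives from `c (i + 1)`
              subst hp
              generalize hf : lm Γ ξ (Γ.vtx (c i)) = f at *
              cases h5 with
              | seg _ e1 e2 e3 e4 =>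
                rcases h3 with ⟨rfl, h3⟩ | h3
                · left
                  rw [lm_eqv (Or.inl ⟨_, h3, at_vtx _⟩)]
                  linarith
                · right
                  have h7 : Arr ξ (c i) (c (i + 1)) r := by
                    refine ⟨c i, c (i + 1), _, Or.inr h3.flip, ?_⟩
                    refine (RP.seg _ hadji ?_ ?_ le_rfl).cast rfl ?_
                    · linarith
                    · rw [hw]; linarith [h3.2.1]
                    · rw [hw]; ring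
                  have h8 : lm Γ ξ (Γ.vtx (c (i + 1))) = r :=
                    lm_eq h7.ro (by linarith [Γ.w_lt _ _ e1])
                  rw [h8]
                  exact ⟨by linarith, i, rfl, h7⟩
              | next β _ _ _ L e1 e2 e3 e4 e5 =>
                left
                have h7 : Arr ξ β (c (i + 1)) L := ⟨p, q, r, h3, e1⟩
                have h8 : lm Γ ξ (Γ.vtx (c (i + 1))) = L := by
                  refine lm_eq h7.ro ?_
                  have := hlt i hi'.le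
                  rw [hf] at this
                  linarith
                rw [h8]
                linarith
            · right
              have h7 : Arr ξ p' (c i) (lm Γ ξ (Γ.vtx (c i))) := ⟨p, q, r, h3, h5⟩
              have h8 := h7.next hadji hp
              have h6 := hup i hi' h8.ro
              have h9 := lm_nonneg ξ (Γ.vtx (c i))
              refine ⟨by linarith, i, rfl, ?_⟩
              rw [h6]
              exact h8
          · exact ((at_vtx _).not_in h4).elim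
      · right
        have h3 := h2.next hadji (by
          intro h
          have := hinj _ _ (by omega) (by omega) h
          omega)
        have h4 := hup (k + 1) hi' h3.ro
        refine ⟨by linarith, k + 1, rfl, ?_⟩
        rw [h4]
        exact h3
  rcases key n le_rfl with h | ⟨h, _⟩
  · have := lm_nonneg ξ (Γ.vtx (c n))
    linarith
  · exact h

end

theorem exists_linkMetric {V : Type} (Γ : MGraph V) :
    ∃ a : Γ.Pt → Γ.Pt → ℝ, IsLinkMetric Γ a :=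
  ⟨lm Γ, lm_nonneg, lm_le_pi, fun x => lm_eqv (Eqv.refl x), lm_symm, lm_tri,
    fun _ _ h => lm_eqv (same_eqv h), lm_edge, lm_mid, fun x y h => lm_chain x y h, lm_path⟩

end Pool.Agent.helper26.FJ3
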