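import Pool.Agent.helper34.FJ3.Defs

set_option autoImplicit false

/-!
# FJ3, module A3a: quotients of typed complexes of non-positive curvature
-/

namespace Pool.Agent.helper26.FJ3

open Pool.Agent.helper34.FJ2 Pool.Agent.helper34.FJ3
open scoped BigOperators

section

variable {N V K : Type} [Group N] [MulAction N V] {X : Complex2 V} {len : V → V → ℝ} {τ : V → K}

theorem qmk_eq {a b : V} : qmk N a = qmk N b ↔ ∃ g : N, g • a = b := by
  unfold qmk
  constructor
  · intro h
    obtain ⟨g, hg⟩ := MulAction.orbitRel_apply.1 (Quotient.exact h)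
    exact ⟨g⁻¹, by rw [← hg]; simp⟩
  · rintro ⟨g, rfl⟩
    exact Quotient.sound (MulAction.orbitRel_apply.2 ⟨g⁻¹, by simp⟩)

theorem qmk_smul (g : N) (a : V) : qmk N (g • a) = qmk N a := (qmk_eq.2 ⟨g, rfl⟩).symm

theorem qmk_surj (x : Quo N V) : ∃ a, qmk N a = x := by
  induction x using Quotient.ind with
  | _ a => exact ⟨a, rfl⟩

theorem typ_eq (ha : Acts N X len τ) {a b : V} (h : qmk N a = qmk N b) : τ a = τ b := by
  obtain ⟨g, rfl⟩ := qmk_eq.1 h
  exact (ha.typ g a).symm

theorem qmk_ne (hτ : Typed X τ) (ha : Acts N X len τ) {a b : V} (h : X.edge a b) :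
    qmk N a ≠ qmk N b := fun h' => hτ.ne a b h (typ_eq ha h')

/-- the basic trick -/
theorem utrick (hτ : Typed X τ) (ha : Acts N X len τ) {a b : V} {g : N} (h : X.edge a b)
    (h' : X.edge a (g • b)) : g • b = b ∨ g • a = a := by
  rcases hτ.uniq a b h with h1 | h1
  · left
    exact h1 _ h' (ha.typ g b)
  · right
    have h2 := ha.edge g⁻¹ _ _ h'
    rw [inv_smul_smul] at h2
    have h3 := h1 _ (X.edge_symm _ _ h2) (ha.typ _ _)
    rw [← h3, smul_inv_smul]
    exact h3.symm

theorem quo_edge (hτ : Typed X τ) (ha : Acts N X len τ) {a b : V} (h : X.edge a b) :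
    (quo N X).edge (qmk N a) (qmk N b) := ⟨qmk_ne hτ ha h, a, b, h, rfl, rfl⟩

theorem quo_tri (hτ : Typed X τ) (ha : Acts N X len τ) {a b c : V} (h : X.tri a b c) :
    (quo N X).tri (qmk N a) (qmk N b) (qmk N c) :=
  ⟨⟨qmk_ne hτ ha (X.tri_edge _ _ _ h), qmk_ne hτ ha (X.tri_edge' h),
    qmk_ne hτ ha (X.tri_edge'' h)⟩, a, b, c, h, rfl, rfl, rfl⟩

theorem lift_tri (ha : Acts N X len τ) {a : V} {y z : Quo N V}
    (h : (quo N X).tri (qmk N a) y z) : ∃ b c, X.tri a b c ∧ qmk N b = y ∧ qmk N c = z := by
  obtain ⟨_, a', b, c, h1, h2, rfl, rfl⟩ := h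
  obtain ⟨g, rfl⟩ := qmk_eq.1 h2
  exact ⟨g • b, g • c, ha.tri g _ _ _ h1, qmk_smul _ _, qmk_smul _ _⟩

theorem lift_next (hτ : Typed X τ) (ha : Acts N X len τ) {a b : V} {z : Quo N V}
    (hab : X.edge a b) (h : (quo N X).tri (qmk N a) (qmk N b) z) :
    ∃ c, X.tri a b c ∧ qmk N c = z := by
  obtain ⟨b', c, h1, h2, rfl⟩ := lift_tri ha h
  obtain ⟨g, rfl⟩ := qmk_eq.1 h2
  rcases utrick hτ ha (X.tri_edge _ _ _ h1) hab with h3 | h3
  · rw [h3]
    exact ⟨c, h1, rfl⟩
  · refine ⟨g • c, ?_, qmk_smul _ _⟩
    have := ha.tri g _ _ _ h1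
    rwa [h3] at this

theorem lift_link (hτ : Typed X τ) (ha : Acts N X len τ) {a c0 : V} (hc0 : X.edge a c0)
    (b : ℕ → Quo N V) (hb : qmk N c0 = b 0) (n : ℕ)
    (h : ∀ i, i < n → (quo N X).tri (qmk N a) (b i) (b (i + 1))) :
    ∃ c : ℕ → V, c 0 = c0 ∧ (∀ i, i ≤ n → X.edge a (c i) ∧ qmk N (c i) = b i) ∧
      ∀ i, i < n → X.tri a (c i) (c (i + 1)) := by
  induction n with
  | zero =>
    refine ⟨fun _ => c0, rfl, ?_, ?_⟩
    · intro i hi
      have : i = 0 := by omega
      subst this
      exact ⟨hc0, hb⟩
    · intro i hi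
      omega
  | succ n ih =>
    obtain ⟨c, h0, h1, h2⟩ := ih fun i hi => h i (by omega)
    have h3 := h n (by omega)
    rw [← (h1 n le_rfl).2] at h3
    obtain ⟨d, hd, hd'⟩ := lift_next hτ ha (h1 n le_rfl).1 h3
    refine ⟨fun i => if i ≤ n then c i else d, ?_, ?_, ?_⟩
    · simpa using h0
    · intro i hi
      by_cases hi' : i ≤ n
      · simp only [if_pos hi']
        exact h1 i hi'
      · have : i = n + 1 := by omega
        subst this
        simp only [if_neg hi']
        exact ⟨X.tri_edge'' hd, hd'⟩
    · intro i hi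
      by_cases hi' : i < n
      · simp only [if_pos hi'.le, if_pos (show i + 1 ≤ n by omega)]
        exact h2 i hi'
      · have : i = n := by omega
        subst this
        simp only [if_pos le_rfl, if_neg (show ¬ (i + 1 ≤ i) by omega)]
        exact hd

end

section

variable {P : ∀ (G : Type) [Group G], Prop}

theorem quoLen_eq {N V K : Type} [Group N] [MulAction N V] (X : Complex2 V) (len : V → V → ℝ)
    (τ : V → K) (hτ : Typed X τ) (ha : Acts N X len τ) (a b : V) (h : X.edge a b) :
    quoLen N X len (qmk N a) (qmk N b) = len a b := by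
  have hex : ∃ r, ∃ a' b', X.edge a' b' ∧ qmk N a' = qmk N a ∧ qmk N b' = qmk N b ∧
      len a' b' = r := ⟨_, a, b, h, rfl, rfl, rfl⟩
  unfold quoLen
  rw [dif_pos hex]
  obtain ⟨a', b', h1, h2, h3, h4⟩ := hex.choose_spec
  rw [← h4]
  obtain ⟨g, hg⟩ := qmk_eq.1 h2
  have h5 := ha.edge g _ _ h1
  rw [hg] at h5
  have h6 : qmk N b = qmk N (g • b') := by rw [qmk_smul]; exact h3.symm
  obtain ⟨k, hk⟩ := qmk_eq.1 h6
  have h7 : len a (g • b') = len a' b' := by
    have := ha.len g _ _ h1
    rwa [hg] at this
  rw [← h7]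
  rw [← hk] at h5 ⊢
  rcases utrick hτ ha h h5 with h8 | h8
  · rw [h8]
  · have := ha.len k _ _ h
    rwa [h8] at this

theorem corner_eq {N V K : Type} [Group N] [MulAction N V] (X : Complex2 V) (len : V → V → ℝ)
    (τ : V → K) (hτ : Typed X τ) (ha : Acts N X len τ) {a b c : V} (h : X.tri a b c) :
    corner (quoLen N X len) (qmk N a) (qmk N b) (qmk N c) = corner len a b c := by
  unfold corner
  rw [quoLen_eq X len τ hτ ha _ _ (X.tri_edge _ _ _ h),
    quoLen_eq X len τ hτ ha _ _ (X.tri_edge' h), quoLen_eq X len τ hτ ha _ _ (X.tri_edge'' h)]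

theorem quo_npc {N V K : Type} [Group N] [MulAction N V] (X : Complex2 V) (len : V → V → ℝ)
    (τ : V → K) (hn : NPC X len) (hτ : Typed X τ) (ha : Acts N X len τ) (hr : Rot N X len) :
    NPC (quo N X) (quoLen N X len) where
  symm x y := by
    by_cases hex : ∃ a b, X.edge a b ∧ qmk N a = x ∧ qmk N b = y
    · obtain ⟨a, b, h, rfl, rfl⟩ := hex
      rw [quoLen_eq X len τ hτ ha _ _ h, quoLen_eq X len τ hτ ha _ _ (X.edge_symm _ _ h),
        hn.symm]
    · have h1 : ¬ ∃ r, ∃ a b, X.edge a b ∧ qmk N a = x ∧ qmk N b = y ∧ len a b = r := by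
        rintro ⟨r, a, b, h, h1, h2, _⟩
        exact hex ⟨a, b, h, h1, h2⟩
      have h2 : ¬ ∃ r, ∃ a b, X.edge a b ∧ qmk N a = y ∧ qmk N b = x ∧ len a b = r := by
        rintro ⟨r, a, b, h, h1, h2, _⟩
        exact hex ⟨b, a, X.edge_symm _ _ h, h2, h1⟩
      unfold quoLen
      rw [dif_neg h1, dif_neg h2]
  pos x y h := by
    obtain ⟨_, a, b, h, rfl, rfl⟩ := h
    rw [quoLen_eq X len τ hτ ha _ _ h]
    exact hn.pos _ _ h
  triangle x y z h := by
    obtain ⟨_, a, b, c, h, rfl, rfl, rfl⟩ := h
    rw [quoLen_eq X len τ hτ ha _ _ (X.tri_edge _ _ _ h),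
      quoLen_eq X len τ hτ ha _ _ (X.tri_edge' h), quoLen_eq X len τ hτ ha _ _ (X.tri_edge'' h)]
    exact hn.triangle _ _ _ h
  link x n b hn3 hb hinj htri := by
    classical
    obtain ⟨a, rfl⟩ := qmk_surj x
    -- lift
    obtain ⟨c0, c1, h1, h2, _⟩ := lift_tri ha (htri 0 (by omega))
    obtain ⟨c, hc0, hc, hct⟩ := lift_link hτ ha (X.tri_edge _ _ _ h1) b h2 n htri
    have hsum : ∑ i ∈ Finset.range n, corner (quoLen N X len) (qmk N a) (b i) (b (i + 1)) =
        ∑ i ∈ Finset.range n, corner len a (c i) (c (i + 1)) := by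
      refine Finset.sum_congr rfl fun i hi => ?_
      have hi' := Finset.mem_range.1 hi
      rw [← (hc i (by omega)).2, ← (hc (i + 1) (by omega)).2]
      exact corner_eq X len τ hτ ha (hct i hi')
    rw [hsum]
    have hcinj : ∀ i j, i < n → j < n → c i = c j → i = j := by
      intro i j hi hj hij
      refine hinj i j hi hj ?_
      rw [← (hc i (by omega)).2, ← (hc j (by omega)).2, hij]
    have h3 : qmk N (c 0) = qmk N (c n) := by
      rw [(hc 0 (by omega)).2, (hc n le_rfl).2, hb]
    obtain ⟨z, hz⟩ := qmk_eq.1 h3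
    have h4 := (hc n le_rfl).1
    rw [← hz] at h4
    by_cases hcn : c n = c 0
    · exact hn.link a n c hn3 hcn hcinj hct
    have hza : z • a = a := by
      rcases utrick hτ ha (hc 0 (by omega)).1 h4 with h5 | h5
      · exact absurd (hz.symm.trans h5) hcn
      · exact h5
    have hz1 : z ≠ 1 := by
      rintro rfl
      rw [one_smul] at hz
      exact hcn hz.symm
    by_cases hfree : ∀ i, i < n → ∀ g : N, g • a = a → g • c i = c i → g = 1
    · refine hr.rot a z n c hza hz1 hct ?_ hz.symm
      intro i hi
      refine ⟨(hc i hi).1, ?_⟩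
      rcases Nat.lt_or_ge i n with hi' | hi'
      · exact hfree i hi'
      · have : i = n := by omega
        subst this
        intro g hga hgc
        rw [← hz] at hgc
        have h5 : (z⁻¹ * g * z) • a = a := by
          rw [mul_smul, mul_smul, hza, hga, inv_smul_eq_iff, hza]
        have h6 : (z⁻¹ * g * z) • c 0 = c 0 := by
          rw [mul_smul, mul_smul, hgc, inv_smul_smul]
        have h7 := hfree 0 (by omega) _ h5 h6
        have h8 : g = z * (z⁻¹ * g * z) * z⁻¹ := by group
        rw [h8, h7]
        group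
    · push Not at hfree
      obtain ⟨i, hi, g, hga, hgc, hg1⟩ := hfree
      have hzc : z • c i = c i := by
        rcases hr.mark a (c i) (hc i hi.le).1 with h5 | h5
        · exact absurd (h5 g hga hgc) hg1
        · exact (h5 z).1 hza
      -- the closed path starting at `c i`
      let d : ℕ → V := fun j => if i + j < n then c (i + j) else z • c (i + j - n)
      have hd1 : ∀ j, i + j < n → d j = c (i + j) := fun j hj => if_pos hj
      have hd2 : ∀ j, n ≤ i + j → d j = z • c (i + j - n) := fun j hj => if_neg (by omega)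
      have hdq : ∀ j, j < n → qmk N (d j) = b (if i + j < n then i + j else i + j - n) := by
        intro j hj
        by_cases h : i + j < n
        · rw [hd1 j h, if_pos h]
          exact (hc _ h.le).2
        · rw [hd2 j (by omega), if_neg h, qmk_smul]
          exact (hc _ (by omega)).2
      have hdt : ∀ j, j < n → X.tri a (d j) (d (j + 1)) ∧
          corner len a (d j) (d (j + 1)) = if i + j < n then corner len a (c (i + j)) (c (i + j + 1))
            else corner len a (c (i + j - n)) (c (i + j - n + 1)) := by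
        intro j hj
        by_cases h : i + j < n
        · rw [if_pos h, hd1 j h]
          by_cases h' : i + (j + 1) < n
          · rw [hd1 _ h']
            exact ⟨hct _ h, rfl⟩
          · have h'' : i + j + 1 = n := by omega
            have h9 : d (j + 1) = c (i + j + 1) := by
              rw [hd2 _ (by omega), h'', ← hz]
              congr 2
              omega
            rw [h9]
            exact ⟨hct _ h, rfl⟩
        · rw [if_neg h, hd2 j (by omega), hd2 (j + 1) (by omega),
            show i + (j + 1) - n = i + j - n + 1 by omega]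
          have h10 := hct (i + j - n) (by omega)
          have h11 := ha.tri z _ _ _ h10
          rw [hza] at h11
          refine ⟨h11, ?_⟩
          have e1 := ha.len z _ _ (X.tri_edge _ _ _ h10)
          have e2 := ha.len z _ _ (X.tri_edge' h10)
          have e3 := ha.len z _ _ (X.tri_edge'' h10)
          rw [hza] at e1 e3
          unfold corner
          rw [e1, e2, e3]
      have hdn : d n = d 0 := by
        rw [hd2 n (by omega), hd1 0 (by omega), show i + n - n = i by omega, hzc, add_zero]
      have hdinj : ∀ j k, j < n → k < n → d j = d k → j = k := by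
        intro j k hj hk hjk
        have h12 : b (if i + j < n then i + j else i + j - n) =
            b (if i + k < n then i + k else i + k - n) := by
          rw [← hdq j hj, ← hdq k hk, hjk]
        have h13 := hinj _ _ (by split_ifs <;> omega) (by split_ifs <;> omega) h12
        split_ifs at h13 <;> omega
      have h14 := hn.link a n d hn3 hdn hdinj fun j hj => (hdt j hj).1
      refine h14.trans (le_of_eq ?_)
      have h15 : ∑ j ∈ Finset.range n, corner len a (d j) (d (j + 1)) =
          ∑ j ∈ Finset.range n, if i + j < n then corner len a (c (i + j)) (c (i + j + 1))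
            else corner len a (c (i + j - n)) (c (i + j - n + 1)) :=
        Finset.sum_congr rfl fun j hj => (hdt j (Finset.mem_range.1 hj)).2
      rw [h15]
      obtain ⟨p, hp⟩ : ∃ p, n = p + i := ⟨n - i, by omega⟩
      have e1 : ∑ j ∈ Finset.range n, (if i + j < n then corner len a (c (i + j)) (c (i + j + 1))
            else corner len a (c (i + j - n)) (c (i + j - n + 1))) =
          ∑ x ∈ Finset.range p, corner len a (c (i + x)) (c (i + x + 1)) +
            ∑ x ∈ Finset.range i, corner len a (c x) (c (x + 1)) := by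
        rw [show Finset.range n = Finset.range (p + i) by rw [hp], Finset.sum_range_add]
        congr 1
        · refine Finset.sum_congr rfl fun x hx => ?_
          have := Finset.mem_range.1 hx
          rw [if_pos (by omega)]
        · refine Finset.sum_congr rfl fun x hx => ?_
          have := Finset.mem_range.1 hx
          rw [if_neg (by omega), show i + (p + x) - n = x by omega]
      have e2 : ∑ x ∈ Finset.range n, corner len a (c x) (c (x + 1)) =
          ∑ x ∈ Finset.range i, corner len a (c x) (c (x + 1)) +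
            ∑ x ∈ Finset.range p, corner len a (c (i + x)) (c (i + x + 1)) := by
        rw [show Finset.range n = Finset.range (i + p) by rw [hp, add_comm],
          Finset.sum_range_add]
      rw [e1, e2, add_comm]

/-! ### Simple connectedness -/

theorem rev_map {V W : Type} (f : V → W) (a : V) (l : List V) :
    rev (f a) (l.map f) = (rev a l).map f := by
  induction l generalizing a with
  | nil => rfl
  | cons b l ih => simp [ih]

theorem endp_map' {V W : Type} (f : V → W) (a : V) (l : List V) :
    endp (f a) (l.map f) = f (endp a l) := by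
  induction l generalizing a with
  | nil => rfl
  | cons b l ih => simp [ih]

theorem path_map {N V K : Type} [Group N] [MulAction N V] {X : Complex2 V} {len : V → V → ℝ}
    {τ : V → K} (hτ : Typed X τ) (ha : Acts N X len τ) {a : V} {l : List V}
    (h : IsPath X a l) : IsPath (quo N X) (qmk N a) (l.map (qmk N)) := by
  induction l generalizing a with
  | nil => trivial
  | cons b l ih => exact ⟨quo_edge hτ ha h.1, ih h.2⟩

theorem htpy_map {N V K : Type} [Group N] [MulAction N V] {X : Complex2 V} {len : V → V → ℝ}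
    {τ : V → K} (hτ : Typed X τ) (ha : Acts N X len τ) {a : V} {l m : List V}
    (h : Htpy X a l m) : Htpy (quo N X) (qmk N a) (l.map (qmk N)) (m.map (qmk N)) := by
  induction h with
  | refl => exact Htpy.refl _ _
  | symm _ _ _ _ ih => exact ih.symm
  | trans _ _ _ _ _ _ ih1 ih2 => exact ih1.trans _ _ _ _ ih2
  | cons _ _ _ _ _ ih => exact Htpy.cons _ _ _ _ ih
  | spur a b l h' => exact Htpy.spur _ _ _ (quo_edge hτ ha h')
  | tri a b c l h' => exact Htpy.tri _ _ _ _ (quo_tri hτ ha h')

theorem path_lift {N V K : Type} [Group N] [MulAction N V] {X : Complex2 V} {len : V → V → ℝ}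
    {τ : V → K} (ha : Acts N X len τ) (L : List (Quo N V)) :
    ∀ a : V, IsPath (quo N X) (qmk N a) L → ∃ l, IsPath X a l ∧ l.map (qmk N) = L := by
  induction L with
  | nil => exact fun a _ => ⟨[], trivial, rfl⟩
  | cons y L ih =>
    rintro a ⟨⟨_, a', b, h1, h2, rfl⟩, h3⟩
    obtain ⟨g, rfl⟩ := qmk_eq.1 h2
    have h4 : qmk N (g • b) = qmk N b := qmk_smul _ _
    rw [← h4] at h3 ⊢
    obtain ⟨l, hl, hl'⟩ := ih (g • b) h3
    exact ⟨g • b :: l, ⟨ha.edge g _ _ h1, hl⟩, by simp [hl']⟩

theorem htpy_of_endp {V : Type} {X : Complex2 V} (hs : SimplyConnected X) {a : V}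
    {l m : List V} (hl : IsPath X a l) (hm : IsPath X a m) (h : endp a l = endp a m) :
    Htpy X a l m := by
  refine Htpy.cancel_right (rev a m) h ?_ ?_
  · rw [h]
    exact isPath_rev X a m hm
  · have h1 : Htpy X a (l ++ rev a m) [] := by
      refine hs.2.2 a _ ?_ ?_
      · rw [isPath_append]
        refine ⟨hl, ?_⟩
        rw [h]
        exact isPath_rev X a m hm
      · rw [endp_append, h, endp_rev]
    exact h1.trans _ _ _ _ (htpy_rev X a m hm).symm

/-- the image of every path from a vertex to its translate is null-homotopic -/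
def CN {N V : Type} [Group N] [MulAction N V] (X : Complex2 V) (n : N) : Prop :=
  ∀ a l, IsPath X a l → endp a l = n • a → Htpy (quo N X) (qmk N a) (l.map (qmk N)) []

theorem quo_sc {N V K : Type} [Group N] [MulAction N V] (X : Complex2 V) (len : V → V → ℝ)
    (τ : V → K) (hs : SimplyConnected X) (hτ : Typed X τ) (ha : Acts N X len τ)
    (hN : Subgroup.closure {g : N | ∃ v : V, g • v = v} = ⊤) : SimplyConnected (quo N X) := by
  have hinv : Inv N X := ha.inv
  have key : ∀ n : N, CN X n := by
    intro n
    have hn : n ∈ Subgroup.closure {g : N | ∃ v : V, g • v = v} := by rw [hN]; trivial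
    induction hn using Subgroup.closure_induction with
    | mem n hn =>
      obtain ⟨v, hv⟩ := hn
      intro a l hl hl'
      obtain ⟨m, hm, hm'⟩ := hs.2.1 a v
      have hnm : IsPath X (n • a) (m.map (n • ·)) := hinv.isPath n hm
      have hnm' : endp (n • a) (m.map (n • ·)) = v := by rw [endp_map, hm', hv]
      have h1 : Htpy X a l (m ++ rev (n • a) (m.map (n • ·))) := by
        refine htpy_of_endp hs hl ?_ ?_
        · rw [isPath_append, hm']
          refine ⟨hm, ?_⟩
          have := isPath_rev X _ _ hnm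
          rwa [hnm'] at this
        · rw [endp_append, hm', hl']
          have := endp_rev (n • a) (m.map (n • ·))
          rw [hnm'] at this
          exact this.symm
      have h2 := htpy_map hτ ha h1
      refine h2.trans _ _ _ _ ?_
      rw [List.map_append, ← rev_map]
      have h3 : (m.map (n • ·)).map (qmk N) = m.map (qmk N) := by
        rw [List.map_map]
        apply List.map_congr_left
        intro w _
        exact qmk_smul n w
      rw [h3, qmk_smul]
      exact htpy_rev _ _ _ (path_map hτ ha hm)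
    | one =>
      intro a l hl hl'
      rw [one_smul] at hl'
      exact htpy_map hτ ha (hs.2.2 a l hl hl')
    | mul n m _ _ hn hm =>
      intro a l hl hl'
      obtain ⟨l1, h1, h1'⟩ := hs.2.1 a (m • a)
      obtain ⟨l2, h2, h2'⟩ := hs.2.1 (m • a) (n • m • a)
      have h3 : Htpy X a l (l1 ++ l2) := by
        refine htpy_of_endp hs hl ?_ ?_
        · rw [isPath_append, h1']
          exact ⟨h1, h2⟩
        · rw [endp_append, h1', h2', hl', mul_smul]
      refine (htpy_map hτ ha h3).trans _ _ _ _ ?_
      rw [List.map_append]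
      have h4 := hm a l1 h1 h1'
      have h5 := hn (m • a) l2 h2 h2'
      rw [qmk_smul] at h5
      exact (h4.append_right _).trans _ _ _ _ h5
    | inv n _ hn =>
      intro a l hl hl'
      have h1 := isPath_rev X a l hl
      have h2 := endp_rev a l
      rw [hl'] at h1 h2
      have h3 := hn (n⁻¹ • a) (rev a l) h1 (by rw [h2, smul_inv_smul])
      rw [qmk_smul] at h3
      have h4 : Htpy (quo N X) (qmk N a) (l.map (qmk N) ++ (rev a l).map (qmk N)) [] := by
        rw [← rev_map]
        exact htpy_rev _ _ _ (path_map hτ ha hl)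
      have h5 : Htpy (quo N X) (qmk N a) (l.map (qmk N) ++ (rev a l).map (qmk N))
          (l.map (qmk N) ++ []) := by
        apply Htpy.append_left
        rw [endp_map', hl', qmk_smul]
        exact h3
      rw [List.append_nil] at h5
      exact h5.symm.trans _ _ _ _ h4
  refine ⟨?_, ?_, ?_⟩
  · obtain ⟨v⟩ := hs.1
    exact ⟨qmk N v⟩
  · intro x y
    obtain ⟨a, rfl⟩ := qmk_surj x
    obtain ⟨b, rfl⟩ := qmk_surj y
    obtain ⟨l, hl, hl'⟩ := hs.2.1 a b
    exact ⟨l.map (qmk N), path_map hτ ha hl, by rw [endp_map', hl']⟩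
  · intro x L hL hL'
    obtain ⟨a, rfl⟩ := qmk_surj x
    obtain ⟨l, hl, rfl⟩ := path_lift ha L a hL
    rw [endp_map'] at hL'
    obtain ⟨n, hn⟩ := qmk_eq.1 hL'.symm
    exact key n a l hl hn.symm

end

end Pool.Agent.helper26.FJ3
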