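import Pool.Agent.helper34.FJ3.Defs

set_option autoImplicit false

/-!
# FJ3, module A4: a finite index subgroup with large rotation angles
-/

namespace Pool.Agent.helper26.FJ3

open Pool.Agent.helper34.FJ2 Pool.Agent.helper34.FJ3
open scoped BigOperators

section

variable {H V K : Type} [Group H] [MulAction H V]

/-- the stabilisers of the two vertices intersect trivially -/
def Free (H : Type) {V : Type} [Group H] [MulAction H V] (a c : V) : Prop :=
  ∀ g : H, g • a = a → g • c = c → g = 1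

theorem Free.smul {a c : V} (h : Free H a c) (g : H) : Free H (g • a) (g • c) := by
  intro w h1 h2
  have h3 : (g⁻¹ * w * g) • a = a := by
    rw [mul_smul, mul_smul, h1, inv_smul_smul]
  have h4 : (g⁻¹ * w * g) • c = c := by
    rw [mul_smul, mul_smul, h2, inv_smul_smul]
  have h5 := h _ h3 h4
  have h6 : w = g * (g⁻¹ * w * g) * g⁻¹ := by group
  rw [h6, h5]
  group

theorem Free.symm {a c : V} (h : Free H a c) : Free H c a := fun g h1 h2 => h g h2 h1

/-- the value in `ℤ` -/
def val (φ : H →* Multiplicative ℤ) (h : H) : ℤ := Multiplicative.toAdd (φ h)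

theorem val_mul (φ : H →* Multiplicative ℤ) (g h : H) : val φ (g * h) = val φ g + val φ h := by
  simp [val]

theorem val_inv (φ : H →* Multiplicative ℤ) (g : H) : val φ g⁻¹ = - val φ g := by
  simp [val]

theorem val_conj (φ : H →* Multiplicative ℤ) (g h : H) : val φ (g * h * g⁻¹) = val φ h := by
  rw [val_mul, val_mul, val_inv]; ring

theorem val_zpow (φ : H →* Multiplicative ℤ) (g : H) (j : ℤ) : val φ (g ^ j) = j * val φ g := by
  simp [val]

theorem val_zero {φ : H →* Multiplicative ℤ} {g : H} (h : val φ g = 0) : φ g = 1 := by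
  have : Multiplicative.ofAdd (Multiplicative.toAdd (φ g)) = Multiplicative.ofAdd 0 := by
    rw [show Multiplicative.toAdd (φ g) = 0 from h]
  simpa using this

theorem mem_comap_zpowers (φ : H →* Multiplicative ℤ) (n : ℕ) (g : H) :
    g ∈ (Subgroup.zpowers (Multiplicative.ofAdd (n : ℤ))).comap φ ↔ (n : ℤ) ∣ val φ g := by
  rw [Subgroup.mem_comap, Subgroup.mem_zpowers_iff]
  constructor
  · rintro ⟨k, hk⟩
    refine ⟨k, ?_⟩
    unfold val
    rw [← hk]
    simp [mul_comm]
  · rintro ⟨k, hk⟩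
    refine ⟨k, ?_⟩
    have : φ g = Multiplicative.ofAdd (val φ g) := rfl
    rw [this, hk, mul_comm, ← ofAdd_zsmul]
    rfl

theorem fix_pow {a : V} {g : H} (h : g • a = a) (j : ℤ) : g ^ j • a = a := by
  have h1 : g ∈ MulAction.stabilizer H a := h
  exact (MulAction.stabilizer H a).zpow_mem h1 j

theorem eq_of_val {φ : H →* Multiplicative ℤ}
    (hφ : ∀ (v : V) (g : H), g • v = v → φ g = 1 → g = 1) {a : V} {g h : H} (hg : g • a = a)
    (hh : h • a = a) (hv : val φ g = val φ h) : g = h := by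
  have h1 : (g * h⁻¹) • a = a := by
    rw [mul_smul, inv_smul_eq_iff.2 hh.symm, hg]
  have h2 := hφ a _ h1 (val_zero (by rw [val_mul, val_inv, hv]; ring))
  exact mul_inv_eq_one.1 h2

/-- step (1) -/
theorem mark_step {X : Complex2 V} {F : Set V} (hF : F.Finite) (hFe : ∀ a b, X.edge a b → ∃ g : H, g • a ∈ F ∧ g • b ∈ F)
    (φ : H →* Multiplicative ℤ) (hφ : ∀ (v : V) (g : H), g • v = v → φ g = 1 → g = 1) :
    ∃ n1 : ℕ, 0 < n1 ∧ ∀ a c, X.edge a c → ¬ Free H a c → ∀ h : H, h • a = a →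
      (n1 : ℤ) ∣ val φ h → h • c = c := by
  classical
  have h1 : ∀ p : V × V, ∃ m : ℕ, 0 < m ∧ (¬ Free H p.1 p.2 → ∃ z : H, z • p.1 = p.1 ∧
      z • p.2 = p.2 ∧ val φ z = m) := by
    rintro ⟨a, c⟩
    by_cases hf : Free H a c
    · exact ⟨1, one_pos, fun h => absurd hf h⟩
    · unfold Free at hf
      push Not at hf
      obtain ⟨z, hz1, hz2, hz3⟩ := hf
      have hz4 : val φ z ≠ 0 := fun h => hz3 (hφ a z hz1 (val_zero h))
      refine ⟨(val φ z).natAbs, Int.natAbs_pos.2 hz4, fun _ => ?_⟩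
      rcases lt_or_gt_of_ne hz4 with h | h
      · refine ⟨z⁻¹, inv_smul_eq_iff.2 hz1.symm, inv_smul_eq_iff.2 hz2.symm, ?_⟩
        rw [val_inv]
        omega
      · exact ⟨z, hz1, hz2, by omega⟩
  choose m hm0 hm using h1
  refine ⟨∏ p ∈ hF.toFinset ×ˢ hF.toFinset, m p, Finset.prod_pos fun p _ => hm0 p, ?_⟩
  intro a c hac hf h hh hd
  obtain ⟨g, hg1, hg2⟩ := hFe a c hac
  have hf' : ¬ Free H (g • a) (g • c) := by
    intro h'
    have := h'.smul g⁻¹
    rw [inv_smul_smul, inv_smul_smul] at this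
    exact hf this
  obtain ⟨z, hz1, hz2, hz3⟩ := hm (g • a, g • c) hf'
  have hd2 : (m (g • a, g • c) : ℤ) ∣ val φ h := by
    refine dvd_trans ?_ hd
    exact_mod_cast Finset.dvd_prod_of_mem m
      (show (g • a, g • c) ∈ hF.toFinset ×ˢ hF.toFinset by simp [hg1, hg2])
  obtain ⟨j, hj⟩ := hd2
  have h2 : (g * h * g⁻¹) • (g • a) = g • a := by
    rw [mul_smul, mul_smul, inv_smul_smul, hh]
  have h3 : g * h * g⁻¹ = z ^ j := by
    refine eq_of_val hφ h2 (fix_pow hz1 j) ?_
    rw [val_conj, val_zpow, hj, hz3]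
    ring
  have h4 : (g * h * g⁻¹) • (g • c) = g • c := by
    rw [h3]
    exact fix_pow hz2 j
  rw [mul_smul, mul_smul, inv_smul_smul] at h4
  exact (smul_left_cancel_iff g).1 h4

/-- step (2) -/
theorem finite_tri {X : Complex2 V} {F : Set V} (hF : F.Finite)
    (hFt : ∀ a b c, X.tri a b c → ∃ g : H, g • a ∈ F ∧ g • b ∈ F ∧ g • c ∈ F) {a d : V}
    (hf : Free H a d) : {e | X.tri a d e}.Finite := by
  classical
  have h1 : ∀ e, ∃ g : H, X.tri a d e → g • a ∈ F ∧ g • d ∈ F ∧ g • e ∈ F := by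
    intro e
    by_cases h : X.tri a d e
    · obtain ⟨g, hg⟩ := hFt a d e h
      exact ⟨g, fun _ => hg⟩
    · exact ⟨1, fun h' => absurd h' h⟩
  choose g hg using h1
  refine Set.Finite.of_injOn (f := fun e => (g e • a, g e • d, g e • e))
    (t := F ×ˢ F ×ˢ F) ?_ ?_ (hF.prod (hF.prod hF))
  · intro e he
    exact ⟨(hg e he).1, (hg e he).2.1, (hg e he).2.2⟩
  · intro e _ e' _ hee
    simp only [Prod.mk.injEq] at hee
    obtain ⟨h2, h3, h4⟩ := hee
    have h5 : (g e')⁻¹ * g e = 1 := by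
      refine hf _ ?_ ?_
      · rw [mul_smul, h2, inv_smul_smul]
      · rw [mul_smul, h3, inv_smul_smul]
    have h6 : g e = g e' := (inv_mul_eq_one.1 h5).symm
    rw [h6] at h4
    exact (smul_left_cancel_iff (g e')).1 h4

/-- vertices of the link of `a` which are reached from `c` by a path of length `k` through free
vertices -/
def Reach (H : Type) {V : Type} [Group H] [MulAction H V] (X : Complex2 V) (a c : V) (k : ℕ) :
    Set V :=
  {d | ∃ f : ℕ → V, f 0 = c ∧ f k = d ∧ (∀ i, i < k → X.tri a (f i) (f (i + 1))) ∧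
    ∀ i, i ≤ k → Free H a (f i)}

theorem reach_finite {X : Complex2 V} {F : Set V} (hF : F.Finite)
    (hFt : ∀ a b c, X.tri a b c → ∃ g : H, g • a ∈ F ∧ g • b ∈ F ∧ g • c ∈ F) (a c : V)
    (k : ℕ) : (Reach H X a c k).Finite := by
  classical
  induction k with
  | zero =>
    refine (Set.finite_singleton c).subset ?_
    rintro d ⟨f, h0, hk, _⟩
    rw [h0] at hk
    exact hk.symm
  | succ k ih =>
    refine (ih.biUnion (t := fun d => if Free H a d then {e | X.tri a d e} else ∅) ?_).subset ?_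
    · intro d _
      split_ifs with h
      · exact finite_tri hF hFt h
      · exact Set.finite_empty
    · rintro e ⟨f, h0, hk, ht, hfr⟩
      rw [Set.mem_iUnion₂]
      refine ⟨f k, ⟨f, h0, rfl, fun i hi => ht i (by omega), fun i hi => hfr i (by omega)⟩, ?_⟩
      rw [if_pos (hfr k (by omega))]
      rw [← hk]
      exact ht k (by omega)

theorem reach_smul {X : Complex2 V} {len : V → V → ℝ} {τ : V → K} (ha : Acts H X len τ)
    {a c d : V} {k : ℕ} (h : d ∈ Reach H X a c k) (g : H) :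
    g • d ∈ Reach H X (g • a) (g • c) k := by
  obtain ⟨f, h0, hk, ht, hfr⟩ := h
  exact ⟨fun i => g • f i, by simp only [h0], by simp only [hk], fun i hi => ha.tri g _ _ _ (ht i hi),
    fun i hi => (hfr i hi).smul g⟩

/-- step (4) -/
theorem bound_step {X : Complex2 V} {len : V → V → ℝ} {τ : V → K} (ha : Acts H X len τ)
    {F : Set V} (hF : F.Finite) (hFe : ∀ a b, X.edge a b → ∃ g : H, g • a ∈ F ∧ g • b ∈ F)
    (hFt : ∀ a b c, X.tri a b c → ∃ g : H, g • a ∈ F ∧ g • b ∈ F ∧ g • c ∈ F)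
    (φ : H →* Multiplicative ℤ) (M : ℕ) : ∃ n2 : ℕ, ∀ a c k (z : H), X.edge a c → k ≤ M →
      z • a = a → z • c ∈ Reach H X a c k → Free H a c → (val φ z).natAbs ≤ n2 := by
  classical
  let S : V × V → ℕ → Set H := fun p k =>
    if Free H p.1 p.2 then {z | z • p.1 = p.1 ∧ z • p.2 ∈ Reach H X p.1 p.2 k} else ∅
  have hS : ∀ p k, (S p k).Finite := by
    intro p k
    simp only [S]
    split_ifs with h
    · refine Set.Finite.of_injOn (f := fun z : H => z • p.2) (t := Reach H X p.1 p.2 k) ?_ ?_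
        (reach_finite hF hFt _ _ _)
      · intro z hz
        exact hz.2
      · intro z hz z' hz' hzz
        have h1 : (z'⁻¹ * z) • p.1 = p.1 := by
          rw [mul_smul, hz.1, inv_smul_eq_iff, hz'.1]
        have h2 : (z'⁻¹ * z) • p.2 = p.2 := by
          rw [mul_smul, inv_smul_eq_iff]
          exact hzz
        exact (inv_mul_eq_one.1 (h _ h1 h2)).symm
    · exact Set.finite_empty
  have hfin : (⋃ p ∈ F ×ˢ F, ⋃ k ∈ Set.Iic M, (fun z : H => (val φ z).natAbs) '' S p k).Finite :=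
    (hF.prod hF).biUnion fun p _ => (Set.finite_Iic M).biUnion fun k _ => (hS p k).image _
  obtain ⟨n2, hn2⟩ := hfin.bddAbove
  refine ⟨n2, fun a c k z hac hk hza hzc hf => ?_⟩
  obtain ⟨g, hg1, hg2⟩ := hFe a c hac
  apply hn2
  rw [Set.mem_iUnion₂]
  refine ⟨(g • a, g • c), ⟨hg1, hg2⟩, ?_⟩
  rw [Set.mem_iUnion₂]
  refine ⟨k, hk, g * z * g⁻¹, ?_, ?_⟩
  · have : S (g • a, g • c) k = {z | z • (g • a) = g • a ∧
        z • (g • c) ∈ Reach H X (g • a) (g • c) k} := if_pos (hf.smul g)
    rw [this]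
    refine ⟨?_, ?_⟩
    · rw [mul_smul, mul_smul, inv_smul_smul, hza]
    · rw [mul_smul, mul_smul, inv_smul_smul]
      exact reach_smul ha hzc g
  · simp only
    rw [val_conj]

/-- corners are positive -/
theorem corner_pos {X : Complex2 V} {len : V → V → ℝ} (hn : NPC X len) {a b c : V}
    (h : X.tri a b c) : 0 < corner len a b c := by
  unfold corner
  rw [Real.arccos_pos]
  have h1 := hn.pos _ _ (X.tri_edge _ _ _ h)
  have h2 := hn.pos _ _ (X.tri_edge'' h)
  have h3 := hn.pos _ _ (X.tri_edge' h)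
  have h4 := hn.triangle _ _ _ h
  have h5 := hn.triangle _ _ _ (X.tri_swap' h)
  rw [hn.symm c b] at h5
  rw [div_lt_one (by positivity)]
  nlinarith

/-- step (3) -/
theorem corner_bound {X : Complex2 V} {len : V → V → ℝ} {τ : V → K} (hn : NPC X len)
    (ha : Acts H X len τ) {F : Set V} (hF : F.Finite)
    (hFt : ∀ a b c, X.tri a b c → ∃ g : H, g • a ∈ F ∧ g • b ∈ F ∧ g • c ∈ F) :
    ∃ δ : ℝ, 0 < δ ∧ ∀ a b c, X.tri a b c → δ ≤ corner len a b c := by
  classical
  have h1 : ∀ s : Finset (V × V × V), ∃ δ : ℝ, 0 < δ ∧ ∀ t ∈ s, X.tri t.1 t.2.1 t.2.2 →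
      δ ≤ corner len t.1 t.2.1 t.2.2 := by
    intro s
    induction s using Finset.induction_on with
    | empty => exact ⟨1, one_pos, by simp⟩
    | insert t s _ ih =>
      obtain ⟨δ, hδ, h⟩ := ih
      by_cases ht : X.tri t.1 t.2.1 t.2.2
      · refine ⟨min δ (corner len t.1 t.2.1 t.2.2), lt_min hδ (corner_pos hn ht), ?_⟩
        intro u hu hu'
        rcases Finset.mem_insert.1 hu with rfl | hu
        · exact min_le_right _ _
        · exact (min_le_left _ _).trans (h u hu hu')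
      · refine ⟨δ, hδ, ?_⟩
        intro u hu hu'
        rcases Finset.mem_insert.1 hu with rfl | hu
        · exact absurd hu' ht
        · exact h u hu hu'
  obtain ⟨δ, hδ, h⟩ := h1 (hF.toFinset ×ˢ hF.toFinset ×ˢ hF.toFinset)
  refine ⟨δ, hδ, fun a b c habc => ?_⟩
  obtain ⟨g, hg1, hg2, hg3⟩ := hFt a b c habc
  have h2 := h (g • a, g • b, g • c) (by simp [hg1, hg2, hg3]) (ha.tri g _ _ _ habc)
  refine h2.trans (le_of_eq ?_)
  unfold corner
  simp only
  rw [ha.len g _ _ (X.tri_edge _ _ _ habc), ha.len g _ _ (X.tri_edge' habc),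
    ha.len g _ _ (X.tri_edge'' habc)]

theorem exists_rot {H V K : Type} [Group H] [MulAction H V] (X : Complex2 V) (len : V → V → ℝ)
    (τ : V → K) (hn : NPC X len) (ha : Acts H X len τ) (hc : Cocompact H X)
    (φ : H →* Multiplicative ℤ) (hφ : ∀ (v : V) (g : H), g • v = v → φ g = 1 → g = 1) :
    ∃ n : ℕ, 0 < n ∧
      Rot ((Subgroup.zpowers (Multiplicative.ofAdd (n : ℤ))).comap φ) X len := by
  obtain ⟨F, hF, _, hFe, hFt⟩ := hc
  obtain ⟨n1, hn1, hmark⟩ := mark_step hF hFe φ hφ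
  obtain ⟨δ, hδ, hcor⟩ := corner_bound hn ha hF hFt
  obtain ⟨M, hM⟩ := exists_nat_ge (2 * Real.pi / δ)
  obtain ⟨n2, hn2⟩ := bound_step ha hF hFe hFt φ M
  refine ⟨n1 * (n2 + 1), by positivity, ?_⟩
  have hn0 : 0 < n1 * (n2 + 1) := by positivity
  have hle : n2 + 1 ≤ n1 * (n2 + 1) := Nat.le_mul_of_pos_left _ hn1
  refine ⟨?_, ?_⟩
  · intro a b hab
    by_cases hf : Free H a b
    · left
      intro g h1 h2
      exact Subtype.ext (hf g.1 h1 h2)
    · right
      have hf' : ¬ Free H b a := fun h => hf h.symm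
      intro g
      have hd : (n1 : ℤ) ∣ val φ g.1 := by
        have := (mem_comap_zpowers φ _ g.1).1 g.2
        refine dvd_trans ?_ this
        push_cast
        exact dvd_mul_right _ _
      exact ⟨fun h => hmark a b hab hf g.1 h hd,
        fun h => hmark b a (X.edge_symm _ _ hab) hf' g.1 h hd⟩
  · intro a z k c hza hz1 htri hfr hck
    by_contra hlt
    push Not at hlt
    -- free with respect to `H`
    have hfree : ∀ i, i ≤ k → Free H a (c i) := by
      intro i hi w hw1 hw2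
      have h1 := (hfr i hi).2 ⟨w ^ (n1 * (n2 + 1) : ℕ), by
        rw [mem_comap_zpowers, ← zpow_natCast, val_zpow]
        exact dvd_mul_right _ _⟩ (by
          have := fix_pow hw1 ((n1 * (n2 + 1) : ℕ) : ℤ)
          rw [zpow_natCast] at this
          exact this) (by
          have := fix_pow hw2 ((n1 * (n2 + 1) : ℕ) : ℤ)
          rw [zpow_natCast] at this
          exact this)
      have h2 : w ^ (n1 * (n2 + 1) : ℕ) = 1 := congrArg Subtype.val h1
      have h3 : val φ (w ^ ((n1 * (n2 + 1) : ℕ) : ℤ)) = 0 := by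
        rw [zpow_natCast, h2]
        simp [val]
      rw [val_zpow] at h3
      have h4 : val φ w = 0 := by
        rcases mul_eq_zero.1 h3 with h | h
        · have : (n1 * (n2 + 1) : ℕ) = 0 := by exact_mod_cast h
          omega
        · exact h
      exact hφ a w hw1 (val_zero h4)
    have hkM : k ≤ M := by
      have h1 : (k : ℝ) * δ ≤ ∑ i ∈ Finset.range k, corner len a (c i) (c (i + 1)) := by
        have := Finset.card_nsmul_le_sum (Finset.range k)
          (fun i => corner len a (c i) (c (i + 1))) δ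
          (fun i hi => hcor _ _ _ (htri i (Finset.mem_range.1 hi)))
        simpa using this
      have h2 : (k : ℝ) * δ < 2 * Real.pi := h1.trans_lt hlt
      have h3 : (k : ℝ) < 2 * Real.pi / δ := by
        rw [lt_div_iff₀ hδ]
        exact h2
      have h4 : (k : ℝ) ≤ M := h3.le.trans hM
      exact_mod_cast h4
    have h5 : z.1 • c 0 ∈ Reach H X a (c 0) k :=
      ⟨c, rfl, hck, htri, hfree⟩
    have h6 := hn2 a (c 0) k z.1 (hfr 0 (Nat.zero_le _)).1 hkM hza h5 (hfree 0 (Nat.zero_le _))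
    have h7 := (mem_comap_zpowers φ _ z.1).1 z.2
    have h8 : val φ z.1 ≠ 0 := by
      intro h
      exact hz1 (Subtype.ext (hφ a z.1 hza (val_zero h)))
    have h9 := Int.natAbs_dvd_natAbs.2 h7
    have h10 := Nat.le_of_dvd (Int.natAbs_pos.2 h8) h9
    rw [Int.natAbs_natCast] at h10
    omega

end

end Pool.Agent.helper26.FJ3
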