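import Pool.Agent.helper34.FJ3.Sd

set_option autoImplicit false

/-!
# The barycentric subdivision of a simply connected 2-complex is simply connected
-/

namespace Pool.Agent.helper26.FJ3.SdSc

open Pool.Agent.helper34.FJ2 Pool.Agent.helper34.FJ3

variable {V : Type} {X : Complex2 V}

/-! ## stars -/

theorem near {x u : Simp X} (h : x.1 ⊆ u.1) (hne : x ≠ u) : SCmp x u :=
  Or.inl ⟨h, fun h' => hne (Subtype.ext (Set.Subset.antisymm h h'))⟩

open Classical in
/-- the path from `s` to `t` -/
noncomputable def go (s t : Simp X) : List (Simp X) := if s = t then [] else [t]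

theorem go_self (s : Simp X) : go s s = [] := by simp [go]

theorem go_ne {s t : Simp X} (h : s ≠ t) : go s t = [t] := by simp [go, h]

theorem endp_go (s t : Simp X) : endp s (go s t) = t := by
  by_cases h : s = t
  · subst h
    rw [go_self]
    rfl
  · rw [go_ne h]
    rfl

theorem isPath_go {s t : Simp X} (h : s.1 ⊆ t.1 ∨ t.1 ⊆ s.1) : IsPath (sd X) s (go s t) := by
  by_cases hst : s = t
  · subst hst
    rw [go_self]
    trivial
  · rw [go_ne hst]
    refine ⟨?_, trivial⟩
    rcases h with h | h
    · exact near h hst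
    · exact (near h (Ne.symm hst)).symm

/-- a path consisting of faces of `u` is homotopic to the path through `u` -/
theorem star (u : Simp X) : ∀ (l : List (Simp X)) (s : Simp X), IsPath (sd X) s l →
    s.1 ⊆ u.1 → (∀ x ∈ l, x.1 ⊆ u.1) → Htpy (sd X) s l (go s u ++ go u (endp s l)) := by
  intro l
  induction l with
  | nil =>
    intro s _ hs _
    by_cases h : s = u
    · subst h
      simp only [endp_nil, go_self, List.append_nil]
      exact Htpy.refl _ _
    · simp only [endp_nil, go_ne h, go_ne (Ne.symm h), List.cons_append, List.nil_append]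
      exact (Htpy.spur s u [] (near hs h)).symm
  | cons b l ih =>
    intro s hp hs hl
    have hb : b.1 ⊆ u.1 := hl b List.mem_cons_self
    have h1 := ih b hp.2 hb (fun x hx => hl x (List.mem_cons_of_mem _ hx))
    have h2 := Htpy.cons s b _ _ h1
    refine h2.trans _ _ _ _ ?_
    rw [endp_cons]
    generalize go u (endp b l) = r
    have hsb : SCmp s b := hp.1
    by_cases hbu : b = u
    · subst hbu
      have hsb' : s ≠ b := fun h => (sd X).edge_irrefl b (h ▸ hp.1)
      rw [go_self, go_ne hsb']
      exact Htpy.refl _ _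
    · rw [go_ne hbu]
      by_cases hsu : s = u
      · subst hsu
        rw [go_self]
        exact Htpy.spur s b r hsb
      · rw [go_ne hsu]
        exact Htpy.tri s b u r ⟨hsb, near hb hbu, near hs hsu⟩

theorem star_unique (u : Simp X) {s : Simp X} {l m : List (Simp X)} (hl : IsPath (sd X) s l)
    (hm : IsPath (sd X) s m) (hs : s.1 ⊆ u.1) (hlu : ∀ x ∈ l, x.1 ⊆ u.1)
    (hmu : ∀ x ∈ m, x.1 ⊆ u.1) (he : endp s l = endp s m) : Htpy (sd X) s l m := by
  have h1 := star u l s hl hs hlu
  have h2 := star u m s hm hs hmu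
  rw [he] at h1
  exact h1.trans _ _ _ _ h2.symm

/-! ## vertices and edges -/

/-- the vertex `v` of `X` as a vertex of the subdivision -/
def vtx (X : Complex2 V) (v : V) : Simp X := ⟨{v}, Or.inl ⟨v, rfl⟩⟩

open Classical in
/-- the midpoint of the edge `a b` -/
noncomputable def eg (X : Complex2 V) (a b : V) : Simp X :=
  if h : X.edge a b then ⟨{a, b}, Or.inr (Or.inl ⟨a, b, h, rfl⟩)⟩ else vtx X a

theorem eg_val {a b : V} (h : X.edge a b) : (eg X a b).1 = {a, b} := by
  simp [eg, h]

theorem eg_comm {a b : V} (h : X.edge a b) : eg X b a = eg X a b := by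
  apply Subtype.ext
  rw [eg_val h, eg_val (X.edge_symm _ _ h), Set.pair_comm]

/-- the centre of the triangle `a b c` -/
def tr (X : Complex2 V) {a b c : V} (h : X.tri a b c) : Simp X :=
  ⟨{a, b, c}, Or.inr (Or.inr ⟨a, b, c, h, rfl⟩)⟩

theorem vtx_eg {a b : V} (h : X.edge a b) : SCmp (vtx X a) (eg X a b) := by
  left
  rw [eg_val h]
  refine ⟨?_, ?_⟩
  · intro x hx
    exact Or.inl hx
  · intro h'
    have : b ∈ (vtx X a).1 := h' (Or.inr rfl)
    exact X.edge_ne h (Set.mem_singleton_iff.mp this).symm

theorem eg_vtx {a b : V} (h : X.edge a b) : SCmp (eg X a b) (vtx X b) := by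
  have := vtx_eg (X.edge_symm _ _ h)
  rw [eg_comm h] at this
  exact this.symm

/-! ## the path of the subdivision determined by a path of `X` -/

/-- subdivision of a path -/
noncomputable def P (X : Complex2 V) : V → List V → List (Simp X)
  | _, [] => []
  | a, b :: l => eg X a b :: vtx X b :: P X b l

theorem P_append (a : V) (l m : List V) : P X a (l ++ m) = P X a l ++ P X (endp a l) m := by
  induction l generalizing a with
  | nil => rfl
  | cons b l ih => simp [P, ih]

theorem isPath_P {a : V} {l : List V} (h : IsPath X a l) : IsPath (sd X) (vtx X a) (P X a l) := by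
  induction l generalizing a with
  | nil => trivial
  | cons b l ih => exact ⟨vtx_eg h.1, eg_vtx h.1, ih h.2⟩

theorem endp_P (a : V) (l : List V) : endp (vtx X a) (P X a l) = vtx X (endp a l) := by
  induction l generalizing a with
  | nil => rfl
  | cons b l ih => exact ih b

theorem htpy_P {a : V} {l m : List V} (h : Htpy X a l m) :
    Htpy (sd X) (vtx X a) (P X a l) (P X a m) := by
  induction h with
  | refl => exact Htpy.refl _ _
  | symm _ _ _ _ ih => exact ih.symm
  | trans _ _ _ _ _ _ ih1 ih2 => exact ih1.trans _ _ _ _ ih2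
  | cons a b l m _ ih => exact Htpy.cons _ _ _ _ (Htpy.cons _ _ _ _ ih)
  | spur a b l h =>
    show Htpy (sd X) (vtx X a) (eg X a b :: vtx X b :: eg X b a :: vtx X a :: P X a l) (P X a l)
    rw [eg_comm h]
    refine Htpy.trans _ _ _ _ (Htpy.cons _ _ _ _ (Htpy.spur (eg X a b) (vtx X b) _ (eg_vtx h))) ?_
    exact Htpy.spur _ _ _ (vtx_eg h)
  | tri a b c l h =>
    have hab := X.tri_edge _ _ _ h
    have hbc := X.tri_edge' h
    have hac := X.tri_edge'' h
    have key : Htpy (sd X) (vtx X a) (P X a [b, c]) (P X a [c]) := by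
      apply star_unique (tr X h)
      · exact isPath_P ⟨hab, hbc, trivial⟩
      · exact isPath_P ⟨hac, trivial⟩
      · intro x hx
        exact Or.inl hx
      · intro x hx
        simp only [P, List.mem_cons, List.not_mem_nil, or_false] at hx
        rcases hx with rfl | rfl | rfl | rfl
        · rw [eg_val hab]
          rintro y (rfl | rfl)
          · exact Or.inl rfl
          · exact Or.inr (Or.inl rfl)
        · rintro y rfl
          exact Or.inr (Or.inl rfl)
        · rw [eg_val hbc]
          rintro y (rfl | rfl)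
          · exact Or.inr (Or.inl rfl)
          · exact Or.inr (Or.inr rfl)
        · rintro y rfl
          exact Or.inr (Or.inr rfl)
      · intro x hx
        simp only [P, List.mem_cons, List.not_mem_nil, or_false] at hx
        rcases hx with rfl | rfl
        · rw [eg_val hac]
          rintro y (rfl | rfl)
          · exact Or.inl rfl
          · exact Or.inr (Or.inr rfl)
        · rintro y rfl
          exact Or.inr (Or.inr rfl)
      · rfl
    exact key.append_right (P X c l)

/-! ## a vertex of every simplex -/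

theorem nonempty_simp (s : Simp X) : s.1.Nonempty := by
  rcases s.2 with ⟨a, h⟩ | ⟨a, b, _, h⟩ | ⟨a, b, c, _, h⟩
  · rw [h]
    exact ⟨a, rfl⟩
  · rw [h]
    exact ⟨a, Or.inl rfl⟩
  · rw [h]
    exact ⟨a, Or.inl rfl⟩

/-- a vertex of `s` -/
noncomputable def p (s : Simp X) : V := (nonempty_simp s).choose

theorem p_mem (s : Simp X) : p s ∈ s.1 := (nonempty_simp s).choose_spec

theorem vtx_sub {s : Simp X} {v : V} (h : v ∈ s.1) : (vtx X v).1 ⊆ s.1 := by
  rintro x rfl
  exact h

theorem edge_of_mem {s : Simp X} {v w : V} (hv : v ∈ s.1) (hw : w ∈ s.1) (hne : v ≠ w) :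
    X.edge v w := by
  rcases s.2 with ⟨a, h⟩ | ⟨a, b, he, h⟩ | ⟨a, b, c, ht, h⟩
  · rw [h] at hv hw
    exact absurd ((Set.mem_singleton_iff.mp hv).trans (Set.mem_singleton_iff.mp hw).symm) hne
  · rw [h] at hv hw
    rcases hv with rfl | rfl <;> rcases hw with rfl | rfl
    · exact absurd rfl hne
    · exact he
    · exact X.edge_symm _ _ he
    · exact absurd rfl hne
  · rw [h] at hv hw
    have e1 := X.tri_edge _ _ _ ht
    have e2 := X.tri_edge' ht
    have e3 := X.tri_edge'' ht
    rcases hv with rfl | rfl | rfl <;> rcases hw with rfl | rfl | rfl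
    · exact absurd rfl hne
    · exact e1
    · exact e3
    · exact X.edge_symm _ _ e1
    · exact absurd rfl hne
    · exact e2
    · exact X.edge_symm _ _ e3
    · exact X.edge_symm _ _ e2
    · exact absurd rfl hne

open Classical in
/-- the step from `v` to `w` -/
noncomputable def sg (v w : V) : List V := if v = w then [] else [w]

theorem endp_sg (v w : V) : endp v (sg v w) = w := by
  by_cases h : v = w
  · subst h
    simp [sg]
  · simp [sg, h]

theorem isPath_sg {s : Simp X} {v w : V} (hv : v ∈ s.1) (hw : w ∈ s.1) : IsPath X v (sg v w) := by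
  by_cases h : v = w
  · subst h
    simp [sg]
  · simp only [sg, if_neg h]
    exact ⟨edge_of_mem hv hw h, trivial⟩

/-- the path of `X` determined by a path of the subdivision -/
noncomputable def Q : Simp X → List (Simp X) → List V
  | _, [] => []
  | s, t :: l => sg (p s) (p t) ++ Q t l

/-- two comparable simplices are contained in one of them -/
theorem common {s t : Simp X} (h : SCmp s t) : ∃ u : Simp X, s.1 ⊆ u.1 ∧ t.1 ⊆ u.1 := by
  rcases h with h | h
  · exact ⟨t, h.1, subset_rfl⟩
  · exact ⟨s, subset_rfl, h.1⟩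

theorem isPath_Q {s : Simp X} {l : List (Simp X)} (h : IsPath (sd X) s l) :
    IsPath X (p s) (Q s l) := by
  induction l generalizing s with
  | nil => trivial
  | cons t l ih =>
    obtain ⟨u, h1, h2⟩ := common h.1
    simp only [Q, isPath_append, endp_sg]
    exact ⟨isPath_sg (h1 (p_mem s)) (h2 (p_mem t)), ih h.2⟩

theorem endp_Q (s : Simp X) (l : List (Simp X)) : endp (p s) (Q s l) = p (endp s l) := by
  induction l generalizing s with
  | nil => rfl
  | cons t l ih =>
    simp only [Q, endp_append, endp_sg, endp_cons]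
    exact ih t

theorem main_htpy {s : Simp X} {l : List (Simp X)} (h : IsPath (sd X) s l) :
    Htpy (sd X) s (l ++ go (endp s l) (vtx X (p (endp s l))))
      (go s (vtx X (p s)) ++ P X (p s) (Q s l)) := by
  induction l generalizing s with
  | nil =>
    simp only [endp_nil, Q, P, List.append_nil, List.nil_append]
    exact Htpy.refl _ _
  | cons t l ih =>
    refine Htpy.trans _ _ _ _ (Htpy.cons s t _ _ (ih h.2)) ?_
    obtain ⟨u, h1, h2⟩ := common h.1
    have hv : (vtx X (p s)).1 ⊆ s.1 := vtx_sub (p_mem s)
    have hw : (vtx X (p t)).1 ⊆ t.1 := vtx_sub (p_mem t)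
    have hgo : ∀ x y z : Simp X, y.1 ⊆ z.1 → ∀ r ∈ go x y, r.1 ⊆ z.1 := by
      intro x y z hy r hr
      by_cases hxy : x = y
      · subst hxy
        rw [go_self] at hr
        exact absurd hr List.not_mem_nil
      · rw [go_ne hxy] at hr
        rw [List.mem_singleton] at hr
        rw [hr]
        exact hy
    have hPsg : ∀ r ∈ P X (p s) (sg (p s) (p t)), r.1 ⊆ u.1 := by
      intro r hr
      by_cases hpq : p s = p t
      · simp [sg, hpq, P] at hr
      · have hedge := edge_of_mem (h1 (p_mem s)) (h2 (p_mem t)) hpq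
        simp only [sg, if_neg hpq, P, List.mem_cons, List.not_mem_nil, or_false] at hr
        rcases hr with rfl | rfl
        · rw [eg_val hedge]
          rintro y (rfl | rfl)
          · exact h1 (p_mem s)
          · exact h2 (p_mem t)
        · exact vtx_sub (h2 (p_mem t))
    have key : Htpy (sd X) s (t :: go t (vtx X (p t)))
        (go s (vtx X (p s)) ++ P X (p s) (sg (p s) (p t))) := by
      apply star_unique u
      · exact ⟨h.1, isPath_go (Or.inr hw)⟩
      · rw [isPath_append, endp_go]
        exact ⟨isPath_go (Or.inr hv), isPath_P (isPath_sg (h1 (p_mem s)) (h2 (p_mem t)))⟩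
      · exact h1
      · intro x hx
        rcases List.mem_cons.mp hx with rfl | hx
        · exact h2
        · exact hgo _ _ _ (hw.trans h2) x hx
      · intro x hx
        rcases List.mem_append.mp hx with hx | hx
        · exact hgo _ _ _ (hv.trans h1) x hx
        · exact hPsg x hx
      · rw [endp_cons, endp_go, endp_append, endp_go, endp_P, endp_sg]
    have := key.append_right (P X (p t) (Q t l))
    simp only [Q, P_append, endp_sg]
    rw [← List.append_assoc]
    exact this

end Pool.Agent.helper26.FJ3.SdSc

namespace Pool.Agent.helper34.FJ3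

open Pool.Agent.helper34.FJ2 Pool.Agent.helper26.FJ3.SdSc

variable {V : Type}

/-- SD-a -/
theorem sd_sc (X : Complex2 V) (hs : SimplyConnected X) : SimplyConnected (sd X) := by
  obtain ⟨⟨v⟩, hc, hcl⟩ := hs
  refine ⟨⟨vtx X v⟩, ?_, ?_⟩
  · intro s t
    obtain ⟨l, hl, he⟩ := hc (p s) (p t)
    refine ⟨go s (vtx X (p s)) ++ (P X (p s) l ++ go (vtx X (p t)) t), ?_, ?_⟩
    · rw [isPath_append, isPath_append, endp_go, endp_P, he]
      exact ⟨isPath_go (Or.inr (vtx_sub (p_mem s))), isPath_P hl,
        isPath_go (Or.inl (vtx_sub (p_mem t)))⟩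
    · rw [endp_append, endp_append, endp_go, endp_P, he, endp_go]
  · intro s l hl he
    have h1 := main_htpy hl
    have h2 : Htpy X (p s) (Q s l) [] := hcl _ _ (isPath_Q hl) (by rw [endp_Q, he])
    have h3 := htpy_P h2
    rw [he] at h1
    have h4 : Htpy (sd X) s (go s (vtx X (p s)) ++ P X (p s) (Q s l))
        (go s (vtx X (p s)) ++ []) := by
      apply Htpy.append_left
      rw [endp_go]
      exact h3
    have h5 := h1.trans _ _ _ _ h4
    rw [List.append_nil] at h5
    refine Htpy.cancel_right (go s (vtx X (p s))) ?_ ?_ (by simpa using h5)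
    · rw [he]
      rfl
    · rw [he]
      exact isPath_go (Or.inr (vtx_sub (p_mem s)))

end Pool.Agent.helper34.FJ3
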